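import Pool.Agent.TH468.EC.Disj

/-!
# Walks with labelled vertices on two sides
-/

set_option autoImplicit false
set_option linter.unusedSectionVars false

namespace Pool.Agent.TH468.BQ

open Pool.Agent.H694R4.Law SimpleGraph Pool.Agent.TH468.EC

/-- base vertices `b s i` for the two sides `s`, and group elements that move `b (!s) j` to a
neighbour of `b s i` -/
structure Sy (Γ V : Type*) where
  b : Bool → ℕ → V
  γ : Bool → ℕ → ℕ → Γ

variable {Γ V : Type*} [Group Γ] [MulAction Γ V]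

/-- the group element after `k` steps of the walk with the labels `w`, from the side `s` -/
def Gv (S : Sy Γ V) (s : Bool) (w : ℕ → ℕ) : ℕ → Γ
  | 0 => 1
  | k + 1 => Gv S s w k * S.γ (sd s k) (w k) (w (k + 1))

/-- the vertex after `k` steps -/
def Pv (S : Sy Γ V) (s : Bool) (w : ℕ → ℕ) (k : ℕ) : V := Gv S s w k • S.b (sd s k) (w k)

theorem Pv_zero (S : Sy Γ V) (s : Bool) (w : ℕ → ℕ) : Pv S s w 0 = S.b s (w 0) := by
  simp [Pv, Gv, sd]

theorem Gv_one (S : Sy Γ V) (s : Bool) (w : ℕ → ℕ) : Gv S s w 1 = S.γ s (w 0) (w 1) := by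
  simp [Gv, sd]

theorem Gv_congr (S : Sy Γ V) (s : Bool) (w w' : ℕ → ℕ) (k : ℕ) (h : ∀ i ≤ k, w i = w' i) :
    Gv S s w k = Gv S s w' k := by
  induction k with
  | zero => rfl
  | succ k ih =>
    rw [Gv, Gv, ih (fun i hi => h i (by omega)), h k (by omega), h (k + 1) le_rfl]

theorem Pv_congr (S : Sy Γ V) (s : Bool) (w w' : ℕ → ℕ) (k : ℕ) (h : ∀ i ≤ k, w i = w' i) :
    Pv S s w k = Pv S s w' k := by
  rw [Pv, Pv, Gv_congr S s w w' k h, h k le_rfl]

theorem Gv_add (S : Sy Γ V) (s : Bool) (w : ℕ → ℕ) (a k : ℕ) :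
    Gv S s w (a + k) = Gv S s w a * Gv S (sd s a) (fun i => w (a + i)) k := by
  induction k with
  | zero => simp [Gv]
  | succ k ih =>
    rw [← add_assoc, Gv, Gv, ih, mul_assoc, sd_add]
    rfl

theorem Pv_add (S : Sy Γ V) (s : Bool) (w : ℕ → ℕ) (a k : ℕ) :
    Pv S s w (a + k) = Gv S s w a • Pv S (sd s a) (fun i => w (a + i)) k := by
  rw [Pv, Pv, Gv_add, mul_smul, sd_add]

theorem sd_sub (s : Bool) (n k : ℕ) (h : k ≤ n) : sd (sd s n) k = sd s (n - k) := by
  obtain ⟨j, rfl⟩ : ∃ j, n = j + k := ⟨n - k, by omega⟩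
  rw [sd_add, ← sd_add (sd s j), sd_even _ (k + k) (by omega), Nat.add_sub_cancel]

theorem Gv_rev (S : Sy Γ V) (hinv : ∀ s i j, S.γ (!s) j i = (S.γ s i j)⁻¹) (s : Bool)
    (w : ℕ → ℕ) (n k : ℕ) (h : k ≤ n) :
    Gv S (sd s n) (fun i => w (n - i)) k = (Gv S s w n)⁻¹ * Gv S s w (n - k) := by
  induction k with
  | zero => simp [Gv]
  | succ k ih =>
    obtain ⟨j, hj⟩ : ∃ j, n - k = j + 1 := ⟨n - k - 1, by omega⟩
    have hj' : n - (k + 1) = j := by omega
    rw [Gv, ih (by omega), sd_sub s n k (by omega), hj, hj', Gv]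
    have h1 : sd s (j + 1) = !(sd s j) := by
      rw [sd_add]
      rfl
    rw [h1, hinv, mul_assoc, mul_assoc, mul_inv_cancel, mul_one]

theorem Pv_rev (S : Sy Γ V) (hinv : ∀ s i j, S.γ (!s) j i = (S.γ s i j)⁻¹) (s : Bool)
    (w : ℕ → ℕ) (n k : ℕ) (h : k ≤ n) :
    Pv S (sd s n) (fun i => w (n - i)) k = (Gv S s w n)⁻¹ • Pv S s w (n - k) := by
  rw [Pv, Pv, Gv_rev S hinv s w n k h, mul_smul, sd_sub s n k h]

/-- no backtracking -/
def NB (w : ℕ → ℕ) (n : ℕ) : Prop := ∀ k, k + 2 ≤ n → w k ≠ w (k + 2)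

/-- labels less than `M` -/
def Vd (M : ℕ) (w : ℕ → ℕ) (n : ℕ) : Prop := ∀ k ≤ n, w k < M

/-- closed walk -/
def Cl (S : Sy Γ V) (s : Bool) (w : ℕ → ℕ) (n : ℕ) : Prop := Pv S s w n = S.b s (w 0)

/-- data -/
structure Dt (X : SimpleGraph V) (S : Sy Γ V) (M L : ℕ) : Prop where
  aut : ∀ (g : Γ) (a c : V), X.Adj a c → X.Adj (g • a) (g • c)
  inv : ∀ s i j, S.γ (!s) j i = (S.γ s i j)⁻¹
  adj : ∀ s i j, i < M → j < M → X.Adj (S.b s i) (S.γ s i j • S.b (!s) j)
  ns : ∀ s w n, 1 ≤ n → n < L → NB w n → Vd M w n → ¬ Cl S s w n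

variable {X : SimpleGraph V} {S : Sy Γ V} {M L : ℕ}

theorem Dt.inj (D : Dt X S M L) : ∀ (n n' : ℕ) (s : Bool) (w w' : ℕ → ℕ), NB w n → NB w' n' →
    n + n' < L → Vd M w n → Vd M w' n' → w 0 = w' 0 → Pv S s w n = Pv S s w' n' →
    n = n' ∧ ∀ k ≤ n, w k = w' k := by
  intro n
  induction n with
  | zero =>
    intro n' s w w' _ hN' hl _ hV' h0 he
    rcases Nat.eq_zero_or_pos n' with h | h
    · subst h
      exact ⟨rfl, fun k hk => by rw [Nat.le_zero.mp hk]; exact h0⟩
    · exfalso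
      rw [Pv_zero, h0] at he
      exact D.ns s w' n' h (by omega) hN' hV' he.symm
  | succ n ih =>
    intro n' s w w' hN hN' hl hV hV' h0 he
    rcases Nat.eq_zero_or_pos n' with h | h
    · subst h
      exfalso
      rw [Pv_zero, ← h0] at he
      exact D.ns s w (n + 1) (by omega) (by omega) hN hV he
    · obtain ⟨n', rfl⟩ : ∃ j, n' = j + 1 := ⟨n' - 1, by omega⟩
      by_cases h1 : w 1 = w' 1
      · rw [add_comm n 1, add_comm n' 1, Pv_add, Pv_add, Gv_one, Gv_one, h0, h1] at he
        have he' := smul_left_cancel _ he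
        obtain ⟨e1, e2⟩ := ih n' (sd s 1) (fun i => w (1 + i)) (fun i => w' (1 + i))
          (fun k hk => by
            have := hN (1 + k) (by omega)
            rw [show 1 + k + 2 = 1 + (k + 2) by ring] at this
            exact this)
          (fun k hk => by
            have := hN' (1 + k) (by omega)
            rw [show 1 + k + 2 = 1 + (k + 2) by ring] at this
            exact this)
          (by omega) (fun k hk => hV _ (by omega)) (fun k hk => hV' _ (by omega)) h1 he'
        refine ⟨by omega, fun k hk => ?_⟩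
        rcases Nat.eq_zero_or_pos k with h2 | h2
        · subst h2
          exact h0
        · have := e2 (k - 1) (by omega)
          rwa [show 1 + (k - 1) = k by omega] at this
      · exfalso
        set W : ℕ → ℕ := fun i => if i ≤ n + 1 then w (n + 1 - i) else w' (i - (n + 1)) with hW
        have hcl : Cl S (sd s (n + 1)) W (n + 1 + (n' + 1)) := by
          rw [Cl, Pv_add, Gv_congr S (sd s (n + 1)) W (fun i => w (n + 1 - i)) (n + 1) (by
            intro i hi
            simp only [hW]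
            rw [if_pos hi]), Gv_rev S D.inv s w (n + 1) (n + 1) le_rfl, Nat.sub_self]
          have h2 : sd (sd s (n + 1)) (n + 1) = s := by
            rw [← sd_add, sd_even _ _ (by omega)]
          rw [h2, Pv_congr S s (fun i => W (n + 1 + i)) w' (n' + 1) (by
            intro i _
            simp only [hW]
            rcases Nat.eq_zero_or_pos i with h3 | h3
            · subst h3
              rw [if_pos (by omega), Nat.add_zero, Nat.sub_self]
              exact h0
            · rw [if_neg (by omega), Nat.add_sub_cancel_left]), ← he]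
          have h4 : W 0 = w (n + 1) := by
            simp only [hW]
            rw [if_pos (by omega), Nat.sub_zero]
          rw [h4, Pv, Gv]
          simp
        refine D.ns _ W _ (by omega) (by omega) ?_ ?_ hcl
        · intro k hk
          simp only [hW]
          rcases Nat.lt_trichotomy k n with h2 | h2 | h2
          · rw [if_pos (by omega), if_pos (by omega)]
            have := hN (n + 1 - (k + 2)) (by omega)
            rw [show n + 1 - (k + 2) + 2 = n + 1 - k by omega] at this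
            exact this.symm
          · subst h2
            rw [if_pos (by omega), if_neg (by omega), show k + 1 - k = 1 by omega,
              show k + 2 - (k + 1) = 1 by omega]
            exact h1
          · rw [if_neg (by omega : ¬ k + 2 ≤ n + 1)]
            by_cases h3 : k = n + 1
            · subst h3
              rw [if_pos le_rfl, Nat.sub_self, h0]
              have := hN' 0 (by omega)
              rw [show n + 1 + 2 - (n + 1) = 0 + 2 by omega]
              exact this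
            · rw [if_neg (by omega)]
              have := hN' (k - (n + 1)) (by omega)
              rw [show k - (n + 1) + 2 = k + 2 - (n + 1) by omega] at this
              exact this
        · intro k hk
          simp only [hW]
          split_ifs with h2
          · exact hV _ (by omega)
          · exact hV' _ (by omega)

theorem Dt.take_ne (D : Dt X S M L) (s : Bool) (w : ℕ → ℕ) (n i j : ℕ) (hN : NB w n)
    (hV : Vd M w n) (hij : i < j) (hj : j ≤ n) (hl : j - i < L) : Pv S s w i ≠ Pv S s w j := by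
  intro he
  have h1 : j = i + (j - i) := by omega
  rw [h1, Pv_add, Pv] at he
  have he' := smul_left_cancel _ he
  refine D.ns (sd s i) (fun k => w (i + k)) (j - i) (by omega) hl ?_ ?_ he'.symm
  · intro k hk
    have := hN (i + k) (by omega)
    rw [show i + k + 2 = i + (k + 2) by ring] at this
    exact this
  · intro k hk
    exact hV _ (by omega)

theorem Dt.adj_step (D : Dt X S M L) (s : Bool) (w : ℕ → ℕ) (n k : ℕ) (hV : Vd M w n)
    (hk : k < n) : X.Adj (Pv S s w k) (Pv S s w (k + 1)) := by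
  rw [Pv, Pv, Gv, mul_smul]
  have h1 : sd s (k + 1) = !(sd s k) := by
    rw [sd_add]
    rfl
  rw [h1]
  exact D.aut _ _ _ (D.adj _ _ _ (hV _ (by omega)) (hV _ (by omega)))

/-- the cycle: the base vertex, then the walk `β`, then the walk `α` backwards -/
def qf (S : Sy Γ V) (s : Bool) (L B : ℕ) (α β : ℕ → ℕ) (i : ℕ) : V :=
  if i < B then Pv S s β i else Pv S s α (L - i)

/-- pairs of walks with the same end -/
structure Rl (S : Sy Γ V) (M L : ℕ) (s : Bool) (A B : ℕ) (α β : ℕ → ℕ) : Prop where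
  len : A + B = L
  hB : 2 * B ≤ L
  hA : 2 * A ≤ L + 1
  hB1 : 1 ≤ B
  hA2 : 2 ≤ A
  nbα : NB α A
  nbβ : NB β B
  h0 : α 0 = β 0
  hd : α 1 ≠ β 1
  vα : Vd M α A
  vβ : Vd M β B
  meet : Pv S s α A = Pv S s β B

theorem NB.mono {w : ℕ → ℕ} {n m : ℕ} (h : NB w n) (hm : m ≤ n) : NB w m :=
  fun k hk => h k (by omega)

theorem Vd.mono {w : ℕ → ℕ} {n m : ℕ} (h : Vd M w n) (hm : m ≤ n) : Vd M w m :=
  fun k hk => h k (by omega)

theorem NB.shift {w : ℕ → ℕ} {n : ℕ} (h : NB w n) (m : ℕ) (hm : m + 1 ≤ n) :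
    NB (fun i => w (1 + i)) m := by
  intro k hk
  have := h (1 + k) (by omega)
  rw [show 1 + k + 2 = 1 + (k + 2) by ring] at this
  exact this

theorem Vd.shift {w : ℕ → ℕ} {n : ℕ} (h : Vd M w n) (m : ℕ) (hm : m + 1 ≤ n) :
    Vd M (fun i => w (1 + i)) m :=
  fun k hk => h _ (by omega)

theorem Rl.path (D : Dt X S M L) {s : Bool} {A B : ℕ} {α β : ℕ → ℕ}
    (R : Rl S M L s A B α β) : PathF X (L - 1) (qf S s L B α β) := by
  have hlen := R.len
  have hB := R.hB
  have hA := R.hA
  have hB1 := R.hB1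
  have hA2 := R.hA2
  refine ⟨fun i hi => ?_, fun i j hij hj => ?_⟩
  · unfold qf
    rcases Nat.lt_trichotomy (i + 1) B with h1 | h1 | h1
    · rw [if_pos (by omega), if_pos h1]
      exact D.adj_step s β B i R.vβ (by omega)
    · rw [if_pos (by omega), if_neg (by omega)]
      have h2 := D.adj_step s β B i R.vβ (by omega)
      rw [h1, ← R.meet] at h2
      rw [show L - (i + 1) = A by omega]
      exact h2
    · rw [if_neg (by omega), if_neg (by omega)]
      have h2 := D.adj_step s α A (L - (i + 1)) R.vα (by omega)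
      rw [show L - (i + 1) + 1 = L - i by omega] at h2
      exact h2.symm
  · unfold qf
    by_cases h1 : j < B
    · rw [if_pos (by omega), if_pos h1]
      exact D.take_ne s β B i j R.nbβ R.vβ hij h1.le (by omega)
    · rw [if_neg h1]
      by_cases h2 : i < B
      · rw [if_pos h2]
        intro he
        obtain ⟨e1, e2⟩ := D.inj i (L - j) s β α (R.nbβ.mono (by omega)) (R.nbα.mono (by omega))
          (by omega) (R.vβ.mono (by omega)) (R.vα.mono (by omega)) R.h0.symm he
        exact R.hd (e2 1 (by omega)).symm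
      · rw [if_neg h2]
        exact (D.take_ne s α A _ _ R.nbα R.vα (by omega) (by omega) (by omega)).symm

theorem Rl.qf_zero {s : Bool} {A B : ℕ} {α β : ℕ → ℕ} (R : Rl S M L s A B α β) :
    qf S s L B α β 0 = S.b s (α 0) := by
  unfold qf
  have := R.hB1
  rw [if_pos (by omega), Pv_zero, R.h0]

theorem Rl.qf_one {s : Bool} {A B : ℕ} {α β : ℕ → ℕ} (R : Rl S M L s A B α β) :
    qf S s L B α β 1 = Pv S s β 1 := by
  unfold qf
  have hlen := R.len
  have := R.hB1
  by_cases h : 1 < B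
  · rw [if_pos h]
  · have h1 : B = 1 := by omega
    subst h1
    rw [if_neg h, ← R.meet, show L - 1 = A by omega]

theorem Rl.qf_last {s : Bool} {A B : ℕ} {α β : ℕ → ℕ} (R : Rl S M L s A B α β) :
    qf S s L B α β (L - 1) = Pv S s α 1 := by
  unfold qf
  have hlen := R.len
  have hB := R.hB
  have hA2 := R.hA2
  rw [if_neg (by omega), show L - (L - 1) = 1 by omega]

/-- vertices of two cycles with a common edge at the base vertex are different -/
theorem Rl.ne (D : Dt X S M L) {s : Bool} {A B : ℕ} {α β α' β' : ℕ → ℕ}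
    (R : Rl S M L s A B α β) (R' : Rl S M L s A B α' β') (h0 : α 0 = α' 0) (h1 : α 1 = α' 1)
    (h2 : α 2 ≠ α' 2) (hβ : β 1 ≠ β' 1) (i : ℕ) (hi : 1 ≤ i) (hi2 : i ≤ L - 2) :
    qf S s L B α β i ≠ qf S s L B α' β' i := by
  have e1 := R.len
  have e2 := R.hA
  have e3 := R.hB
  unfold qf
  by_cases h : i < B
  · rw [if_pos h, if_pos h]
    intro he
    exact hβ ((D.inj i i s β β' (R.nbβ.mono h.le) (R'.nbβ.mono h.le) (by omega)
      (R.vβ.mono h.le) (R'.vβ.mono h.le) (by rw [← R.h0, ← R'.h0, h0]) he).2 1 hi)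
  · rw [if_neg h, if_neg h]
    obtain ⟨j, hj⟩ : ∃ j, L - i = 1 + j := ⟨L - i - 1, by omega⟩
    rw [hj, Pv_add, Pv_add, Gv_one, Gv_one, h0, h1]
    intro he
    have he' := smul_left_cancel _ he
    exact h2 ((D.inj j j (sd s 1) _ _ (R.nbα.shift j (by omega)) (R'.nbα.shift j (by omega))
      (by omega) (R.vα.shift j (by omega)) (R'.vα.shift j (by omega)) h1 he').2 1 (by omega))

theorem Rl.disj (D : Dt X S M L) {s : Bool} {A B : ℕ} {α β α' β' : ℕ → ℕ}
    (R : Rl S M L s A B α β) (R' : Rl S M L s A B α' β') (h0 : α 0 = α' 0) (h1 : α 1 ≠ α' 1)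
    (hβ : β 1 = β' 1) (hβ2 : β 2 ≠ β' 2) (hB2 : 2 ≤ B) (i j : ℕ) (hi : 1 ≤ i) (hi2 : i ≤ L - 1)
    (hj : 1 ≤ j) (hj2 : j ≤ L - 1) (hij : ¬ (i = 1 ∧ j = 1)) :
    qf S s L B α β i ≠ qf S s L B α' β' j := by
  have e1 := R.len
  have e2 := R.hA
  have e3 := R.hB
  have hzl : α 1 ≠ β 1 := R.hd
  have hzl' : α' 1 ≠ β' 1 := R'.hd
  have h0β : β 0 = β' 0 := by rw [← R.h0, ← R'.h0, h0]
  have hββ : ∀ i j : ℕ, 1 ≤ i → 1 ≤ j → i ≤ B → j ≤ B → ¬ (i = 1 ∧ j = 1) →
      Pv S s β i ≠ Pv S s β' j := by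
    intro i j h1 h2 h3 h4 h5 he
    obtain ⟨i, rfl⟩ : ∃ i', i = 1 + i' := ⟨i - 1, by omega⟩
    obtain ⟨j, rfl⟩ : ∃ j', j = 1 + j' := ⟨j - 1, by omega⟩
    rw [Pv_add, Pv_add, Gv_one, Gv_one, h0β, hβ] at he
    have he' := smul_left_cancel _ he
    obtain ⟨k1, k2⟩ := D.inj i j (sd s 1) _ _ (R.nbβ.shift i (by omega))
      (R'.nbβ.shift j (by omega)) (by omega) (R.vβ.shift i (by omega)) (R'.vβ.shift j (by omega))
      hβ he'
    exact hβ2 (k2 1 (by omega))
  have hβα : ∀ i j : ℕ, 1 ≤ i → 1 ≤ j → i ≤ B → j ≤ A → i + j < L →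
      Pv S s β i ≠ Pv S s α' j := by
    intro i j h1 h2 h3 h4 h5 he
    obtain ⟨k1, k2⟩ := D.inj i j s β α' (R.nbβ.mono h3) (R'.nbα.mono h4) h5 (R.vβ.mono h3)
      (R'.vα.mono h4) (by rw [← R.h0, h0]) he
    exact hzl' (by rw [← hβ, k2 1 h1])
  have hαβ : ∀ i j : ℕ, 1 ≤ i → 1 ≤ j → i ≤ A → j ≤ B → i + j < L →
      Pv S s α i ≠ Pv S s β' j := by
    intro i j h1 h2 h3 h4 h5 he
    obtain ⟨k1, k2⟩ := D.inj i j s α β' (R.nbα.mono h3) (R'.nbβ.mono h4) h5 (R.vα.mono h3)
      (R'.vβ.mono h4) (by rw [h0, R'.h0]) he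
    exact hzl (by rw [hβ, k2 1 h1])
  have hαα : ∀ i j : ℕ, 1 ≤ i → 1 ≤ j → i ≤ A → j ≤ A → Pv S s α i ≠ Pv S s α' j := by
    intro i j k1 k2 k3 k4 he
    by_cases h5 : i + j < L
    · exact h1 ((D.inj i j s α α' (R.nbα.mono k3) (R'.nbα.mono k4) h5 (R.vα.mono k3)
        (R'.vα.mono k4) h0 he).2 1 k1)
    · by_cases h6 : i = A
      · subst h6
        rw [R.meet] at he
        by_cases h8 : j = i
        · subst h8
          rw [R'.meet] at he
          exact hββ _ _ (by omega) (by omega) le_rfl le_rfl (by omega) he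
        · exact hβα _ _ (by omega) k2 le_rfl k4 (by omega) he
      · have h8 : j = A := by omega
        subst h8
        rw [R'.meet] at he
        exact hαβ _ _ k1 (by omega) k3 le_rfl (by omega) he
  unfold qf
  by_cases h1 : i < B
  · rw [if_pos h1]
    by_cases h2 : j < B
    · rw [if_pos h2]
      exact hββ i j hi hj (by omega) (by omega) hij
    · rw [if_neg h2]
      exact hβα i _ hi (by omega) (by omega) (by omega) (by omega)
  · rw [if_neg h1]
    by_cases h2 : j < B
    · rw [if_pos h2]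
      exact hαβ _ j (by omega) hj (by omega) (by omega) (by omega)
    · rw [if_neg h2]
      exact hαα _ _ (by omega) (by omega) (by omega) (by omega)

end Pool.Agent.TH468.BQ
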