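import Mathlib

/-!
# Counting edges between classes
-/

set_option autoImplicit false
set_option linter.unusedSectionVars false

namespace Pool.Agent.TH468.BQ

open Finset

/-- the number of injective functions with values in a set, through all functions -/
theorem sum_inj {V Q : Type*} [Fintype V] [Fintype Q] [DecidableEq Q] (m' : ℕ)
    (R : Q → V → Prop) [∀ p y, Decidable (R p y)] (sz : Q → ℕ) (c : ℕ)
    (hc : ∀ P : Fin (m' + 1) → Q, Function.Injective P →
      #{y : V | ∀ i, R (P i) y} ≤ c * sz (P 0)) :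
    ∑ y : V, (#{p : Q | R p y}).descFactorial (m' + 1) ≤
      c * (Fintype.card Q ^ m' * ∑ p, sz p) := by
  classical
  have h1 : ∀ y : V, (#{p : Q | R p y}).descFactorial (m' + 1) =
      #{P : Fin (m' + 1) → Q | Function.Injective P ∧ ∀ i, R (P i) y} := by
    intro y
    have e1 := Fintype.card_embedding_eq (α := Fin (m' + 1)) (β := {p : Q // R p y})
    rw [Fintype.card_fin, Fintype.card_subtype] at e1
    rw [← e1, ← Fintype.card_subtype]
    refine Fintype.card_congr ⟨fun e => ⟨fun i => (e i).1, fun i j h => e.injective (Subtype.ext h),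
      fun i => (e i).2⟩, fun P => ⟨fun i => ⟨P.1 i, P.2.2 i⟩, fun i j h =>
        P.2.1 (congrArg Subtype.val h)⟩, fun e => ?_, fun P => ?_⟩
    · ext i
      rfl
    · rfl
  calc ∑ y : V, (#{p : Q | R p y}).descFactorial (m' + 1)
      = ∑ y : V, #{P : Fin (m' + 1) → Q | Function.Injective P ∧ ∀ i, R (P i) y} :=
        Finset.sum_congr rfl fun y _ => h1 y
    _ = ∑ y : V, ∑ P : Fin (m' + 1) → Q,
          (if Function.Injective P ∧ ∀ i, R (P i) y then 1 else 0) := by
        simp only [Finset.card_filter]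
    _ = ∑ P : Fin (m' + 1) → Q, ∑ y : V,
          (if Function.Injective P ∧ ∀ i, R (P i) y then 1 else 0) := Finset.sum_comm
    _ ≤ ∑ P : Fin (m' + 1) → Q, c * sz (P 0) := by
        refine Finset.sum_le_sum fun P _ => ?_
        by_cases hP : Function.Injective P
        · refine le_trans (le_of_eq ?_) (hc P hP)
          rw [Finset.card_filter]
          simp [hP]
        · simp [hP]
    _ = c * (Fintype.card Q ^ m' * ∑ p, sz p) := by
        rw [← Finset.mul_sum]
        congr 1
        rw [← (Fin.consEquiv (fun _ : Fin (m' + 1) => Q)).sum_comp, Fintype.sum_prod_type]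
        simp only [Fin.consEquiv_apply, Fin.cons_zero, Finset.sum_const, Finset.card_univ,
          Fintype.card_fun, Fintype.card_fin, smul_eq_mul]
        rw [← Finset.mul_sum]

/-- the power mean inequality for a sum of degrees -/
theorem deg_sum {V : Type*} [Fintype V] (m' : ℕ) (d : V → ℕ) :
    ∃ F : ℕ, ∑ y, d y ≤ m' * Fintype.card V + F ∧
      F ^ (m' + 1) ≤ Fintype.card V ^ m' * ∑ y, (d y).descFactorial (m' + 1) := by
  refine ⟨∑ y, (d y + 1 - (m' + 1)), ?_, ?_⟩
  · rw [← Finset.card_univ, mul_comm, ← smul_eq_mul, ← Finset.sum_const, ← Finset.sum_add_distrib]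
    refine Finset.sum_le_sum fun y _ => ?_
    omega
  · have h1 := pow_sum_le_card_mul_sum_pow (s := (Finset.univ : Finset V))
      (f := fun y => ((d y + 1 - (m' + 1) : ℕ) : ℝ)) (fun _ _ => Nat.cast_nonneg _) m'
    have h2 : (∑ y, (d y + 1 - (m' + 1))) ^ (m' + 1) ≤
        Fintype.card V ^ m' * ∑ y, (d y + 1 - (m' + 1)) ^ (m' + 1) := by
      rw [Finset.card_univ] at h1
      exact_mod_cast h1
    exact h2.trans (Nat.mul_le_mul_left _ (Finset.sum_le_sum fun y _ =>
      Nat.pow_sub_le_descFactorial _ _))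

variable {V Q : Type*} [Fintype V] [Fintype Q] [DecidableEq Q]

/-- size of a class -/
def sz (cls : V → Q) (p : Q) : ℕ := #{x : V | cls x = p}

open Classical in
/-- number of neighbours in a class -/
noncomputable def nb (X : SimpleGraph V) (cls : V → Q) (x : V) (q : Q) : ℕ :=
  #{y : V | X.Adj x y ∧ cls y = q}

theorem sum_cls (cls : V → Q) (f : Q → ℕ) : ∑ x : V, f (cls x) = ∑ p, sz cls p * f p := by
  rw [← Finset.sum_fiberwise (Finset.univ : Finset V) cls]
  refine Finset.sum_congr rfl fun p _ => ?_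
  rw [sz, ← smul_eq_mul, ← Finset.sum_const]
  exact Finset.sum_congr rfl fun x hx => by rw [(Finset.mem_filter.mp hx).2]

theorem sum_sz (cls : V → Q) : ∑ p, sz cls p = Fintype.card V := by
  have h := sum_cls cls (fun _ => 1)
  simp only [Finset.sum_const, Finset.card_univ, smul_eq_mul, mul_one] at h
  exact h.symm

theorem sz_pos (cls : V → Q) (x : V) : 0 < sz cls (cls x) := by
  rw [sz, Finset.card_pos]
  exact ⟨x, by simp⟩

open Classical in
theorem dc (X : SimpleGraph V) (cls : V → Q)
    (hreg : ∀ x x', cls x = cls x' → ∀ q, nb X cls x q = nb X cls x' q) (x y : V) :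
    sz cls (cls x) * nb X cls x (cls y) = sz cls (cls y) * nb X cls y (cls x) := by
  refine Finset.card_mul_eq_card_mul (s := {x' : V | cls x' = cls x})
    (t := {y' : V | cls y' = cls y}) X.Adj ?_ ?_
  · intro x' hx'
    rw [Finset.mem_filter] at hx'
    rw [hreg x x' hx'.2.symm, nb]
    congr 1
    ext y'
    simp only [Finset.mem_bipartiteAbove, Finset.mem_filter, Finset.mem_univ, true_and]
    tauto
  · intro y' hy'
    rw [Finset.mem_filter] at hy'
    rw [hreg y y' hy'.2.symm, nb]
    congr 1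
    ext x'
    simp only [Finset.mem_bipartiteBelow, Finset.mem_filter, Finset.mem_univ, true_and]
    rw [SimpleGraph.adj_comm]
    tauto

open Classical in
/-- few edges -/
theorem count (X : SimpleGraph V) (cls : V → Q) (m' D : ℕ)
    (hreg : ∀ x x', cls x = cls x' → ∀ q, nb X cls x q = nb X cls x' q)
    (hF1 : ∀ x y, nb X cls x (cls y) ≤ D ∨ nb X cls y (cls x) ≤ D)
    (hF2 : ∀ P Z : Finset Q, m' + 1 ≤ P.card → m' + 1 ≤ Z.card →
      ¬ ∀ p ∈ P, ∀ q ∈ Z, ∃ x y, cls x = p ∧ cls y = q ∧ X.Adj x y)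
    (hF3 : ∀ (x : V) (Z : Finset Q), (∀ q ∈ Z, ∃ y, cls y = q ∧ X.Adj x y ∧
      m' + 1 ≤ nb X cls y (cls x)) → Z.card ≤ m') :
    X.edgeSet.ncard ^ (m' + 1) ≤ (2 * (D * (m' + 1) ^ 2)) ^ (m' + 1) * (m' + 1) *
      (Fintype.card V ^ (m' + 1) * Fintype.card Q ^ m') := by
  set n := Fintype.card V with hn
  set tt := Fintype.card Q with htt
  rcases isEmpty_or_nonempty V with hV | ⟨⟨v0⟩⟩
  · have h1 : X.edgeSet = ∅ := by
      ext e
      induction e with
      | _ u v => exact (hV.false u).elim
    rw [h1]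
    simp
  have ht1 : 1 ≤ tt := Fintype.card_pos_iff.mpr ⟨cls v0⟩
  set R : Q → Q → Prop := fun p q => (∃ x y, cls x = p ∧ cls y = q ∧ X.Adj x y) ∧
    sz cls q ≤ sz cls p ∧ sz cls p ≤ (m' + 1) * sz cls q with hR
  set d : V → ℕ := fun y => #{p : Q | R p (cls y)} with hd
  -- the weighted Kovari-Sos-Turan bound
  have hsum : ∑ y : V, (d y).descFactorial (m' + 1) ≤ m' * (tt ^ m' * n) := by
    have h1 := sum_inj (V := V) m' (fun p y => R p (cls y)) (sz cls) m' (by
      intro P hP
      set Z : Finset Q := {q : Q | ∀ i, R (P i) q} with hZ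
      have hZc : Z.card ≤ m' := by
        by_contra hcon
        refine hF2 (Finset.univ.image P) Z ?_ (by omega) ?_
        · rw [Finset.card_image_of_injective _ hP]
          simp
        · intro p hp q hq
          rw [Finset.mem_image] at hp
          obtain ⟨i, _, rfl⟩ := hp
          rw [hZ, Finset.mem_filter] at hq
          exact (hq.2 i).1
      have h2 : #{y : V | ∀ i, R (P i) (cls y)} = ∑ q ∈ Z, sz cls q := by
        rw [Finset.card_eq_sum_card_fiberwise (f := cls) (t := Z) (by
          intro y hy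
          simpa [hZ] using hy)]
        refine Finset.sum_congr rfl fun q hq => ?_
        rw [sz]
        congr 1
        ext y
        simp only [Finset.mem_filter, Finset.mem_univ, true_and]
        constructor
        · exact fun h => h.2
        · intro h
          rw [hZ, Finset.mem_filter] at hq
          exact ⟨h ▸ hq.2, h⟩
      rw [h2]
      refine (Finset.sum_le_card_nsmul Z _ (sz cls (P 0)) ?_).trans ?_
      · intro q hq
        rw [hZ, Finset.mem_filter] at hq
        exact (hq.2 0).2.1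
      · rw [smul_eq_mul]
        exact Nat.mul_le_mul_right _ hZc)
    rw [sum_sz] at h1
    exact h1
  obtain ⟨F, hF, hFp⟩ := deg_sum m' d
  have hFp' : F ^ (m' + 1) ≤ m' * (n ^ (m' + 1) * tt ^ m') := by
    refine hFp.trans ((Nat.mul_le_mul_left _ hsum).trans (le_of_eq ?_))
    rw [← hn]
    ring
  -- edges
  set L : Finset (V × V) := Finset.univ.filter fun q => X.Adj q.1 q.2 ∧
    sz cls (cls q.2) ≤ sz cls (cls q.1) with hL
  have h1 : X.edgeSet ⊆ ((L.image fun q => s(q.1, q.2) : Finset (Sym2 V)) : Set (Sym2 V)) := by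
    intro e he
    induction e with
    | _ u v =>
      rw [SimpleGraph.mem_edgeSet] at he
      rw [Finset.coe_image]
      rcases le_total (sz cls (cls v)) (sz cls (cls u)) with hu | hu
      · exact ⟨(u, v), by simpa [hL] using ⟨he, hu⟩, rfl⟩
      · exact ⟨(v, u), by simpa [hL] using ⟨he.symm, hu⟩, Sym2.eq_swap⟩
  have h2 : X.edgeSet.ncard ≤ L.card := by
    refine (Set.ncard_le_ncard h1 (Finset.finite_toSet _)).trans ?_
    rw [Set.ncard_coe_finset]
    exact Finset.card_image_le
  set Ns : V → Finset Q := fun x => {q : Q | (∃ y, cls y = q ∧ X.Adj x y) ∧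
    sz cls q ≤ sz cls (cls x)} with hNs
  set G : V → Finset Q := fun x => {q : Q | R (cls x) q} with hG
  have hNb : ∀ x, ∀ q ∈ Ns x, nb X cls x q ≤ D := by
    intro x q hq
    rw [hNs, Finset.mem_filter] at hq
    obtain ⟨-, ⟨y, rfl, hxy⟩, hs⟩ := hq
    rcases hF1 x y with h3 | h3
    · exact h3
    · have h4 := dc X cls hreg x y
      have h5 : sz cls (cls x) * nb X cls x (cls y) ≤ sz cls (cls x) * nb X cls y (cls x) := by
        rw [h4]
        exact Nat.mul_le_mul_right _ hs
      exact (Nat.le_of_mul_le_mul_left h5 (sz_pos cls x)).trans h3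
  have hLc : L.card ≤ ∑ x, D * (Ns x).card := by
    rw [hL, Finset.card_filter, Fintype.sum_prod_type]
    refine Finset.sum_le_sum fun x _ => ?_
    rw [← Finset.card_filter]
    refine Finset.card_le_mul_card_image_of_maps_to (f := cls) (t := Ns x) ?_ D ?_
    · intro y hy
      rw [Finset.mem_filter] at hy
      rw [hNs, Finset.mem_filter]
      exact ⟨Finset.mem_univ _, ⟨y, rfl, hy.2.1⟩, hy.2.2⟩
    · intro q hq
      refine le_trans (Finset.card_le_card ?_) (hNb x q hq)
      intro y hy
      simp only [Finset.mem_filter, Finset.mem_univ, true_and] at hy ⊢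
      exact ⟨hy.1.1, hy.2⟩
  have hNsc : ∀ x, (Ns x).card ≤ m' + (G x).card := by
    intro x
    set H : Finset Q := {q : Q | ∃ y, cls y = q ∧ X.Adj x y ∧
      m' + 1 ≤ nb X cls y (cls x)} with hH
    have h3 : H.card ≤ m' := hF3 x H fun q hq => (Finset.mem_filter.mp hq).2
    refine (Finset.card_le_card (t := H ∪ G x) ?_).trans ((Finset.card_union_le _ _).trans
      (Nat.add_le_add_right h3 _))
    intro q hq
    rw [hNs, Finset.mem_filter] at hq
    obtain ⟨-, ⟨y, rfl, hxy⟩, hs⟩ := hq
    rw [Finset.mem_union]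
    by_cases h4 : m' + 1 ≤ nb X cls y (cls x)
    · left
      rw [hH, Finset.mem_filter]
      exact ⟨Finset.mem_univ _, y, rfl, hxy, h4⟩
    · right
      rw [hG, Finset.mem_filter]
      refine ⟨Finset.mem_univ _, ⟨x, y, rfl, rfl, hxy⟩, hs, ?_⟩
      have h5 := dc X cls hreg x y
      have h6 : 1 ≤ nb X cls x (cls y) := by
        rw [nb, Nat.one_le_iff_ne_zero, ← Nat.pos_iff_ne_zero, Finset.card_pos]
        exact ⟨y, by simpa using hxy⟩
      calc sz cls (cls x) = sz cls (cls x) * 1 := (mul_one _).symm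
        _ ≤ sz cls (cls x) * nb X cls x (cls y) := Nat.mul_le_mul_left _ h6
        _ = sz cls (cls y) * nb X cls y (cls x) := h5
        _ ≤ sz cls (cls y) * (m' + 1) := Nat.mul_le_mul_left _ (by omega)
        _ = (m' + 1) * sz cls (cls y) := mul_comm _ _
  have hGsum : ∑ x, (G x).card ≤ (m' + 1) * ∑ y, d y := by
    have e1 : ∑ x, (G x).card = ∑ p, sz cls p * #{q : Q | R p q} :=
      sum_cls cls (fun p => #{q : Q | R p q})
    have e2 : ∑ y, d y = ∑ q, sz cls q * #{p : Q | R p q} :=
      sum_cls cls (fun q => #{p : Q | R p q})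
    rw [e1, e2]
    calc ∑ p, sz cls p * #{q : Q | R p q}
        = ∑ p, ∑ q, (if R p q then sz cls p else 0) := by
          refine Finset.sum_congr rfl fun p _ => ?_
          rw [← Finset.sum_filter, Finset.sum_const, smul_eq_mul, mul_comm]
      _ ≤ ∑ p, ∑ q, (if R p q then (m' + 1) * sz cls q else 0) := by
          refine Finset.sum_le_sum fun p _ => Finset.sum_le_sum fun q _ => ?_
          split_ifs with h
          · exact h.2.2
          · exact le_rfl
      _ = ∑ q, ∑ p, (if R p q then (m' + 1) * sz cls q else 0) := Finset.sum_comm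
      _ = ∑ q, (m' + 1) * (sz cls q * #{p : Q | R p q}) := by
          refine Finset.sum_congr rfl fun q _ => ?_
          rw [← Finset.sum_filter, Finset.sum_const, smul_eq_mul]
          ring
      _ = (m' + 1) * ∑ q, sz cls q * #{p : Q | R p q} := by rw [← Finset.mul_sum]
  have hE : X.edgeSet.ncard ≤ D * (m' + 1) ^ 2 * (n + F) := by
    have h3 : ∑ x, D * (Ns x).card ≤ D * (m' * n + (m' + 1) * (m' * n + F)) := by
      rw [← Finset.mul_sum]
      refine Nat.mul_le_mul_left _ ?_
      refine (Finset.sum_le_sum fun x _ => hNsc x).trans ?_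
      rw [Finset.sum_add_distrib, Finset.sum_const, Finset.card_univ, smul_eq_mul, mul_comm]
      refine Nat.add_le_add_left (hGsum.trans (Nat.mul_le_mul_left _ ?_)) _
      exact hF
    refine h2.trans (hLc.trans (h3.trans ?_))
    rw [mul_assoc]
    refine Nat.mul_le_mul_left _ ?_
    have e3 : m' * n + (m' + 1) * (m' * n + F) ≤ (m' + 1) ^ 2 * (n + F) := by
      have e4 : (m' + 1) ^ 2 * (n + F) = m' * n + (m' + 1) * (m' * n + F) +
          (n + m' * (m' + 1) * F) := by ring
      rw [e4]
      exact Nat.le_add_right _ _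
    exact e3
  have hpow : (n + F) ^ (m' + 1) ≤ 2 ^ (m' + 1) * ((m' + 1) * (n ^ (m' + 1) * tt ^ m')) := by
    have e5 : (n + F) ^ (m' + 1) ≤ 2 ^ (m' + 1) * (n ^ (m' + 1) + F ^ (m' + 1)) := by
      have e6 : n + F ≤ 2 * max n F := by omega
      refine (Nat.pow_le_pow_left e6 _).trans ?_
      rw [mul_pow]
      refine Nat.mul_le_mul_left _ ?_
      rcases le_total n F with h | h
      · rw [max_eq_right h]
        exact Nat.le_add_left _ _
      · rw [max_eq_left h]
        exact Nat.le_add_right _ _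
    refine e5.trans (Nat.mul_le_mul_left _ ?_)
    have e7 : n ^ (m' + 1) ≤ n ^ (m' + 1) * tt ^ m' :=
      Nat.le_mul_of_pos_right _ (Nat.pow_pos (by omega))
    calc n ^ (m' + 1) + F ^ (m' + 1)
        ≤ n ^ (m' + 1) * tt ^ m' + m' * (n ^ (m' + 1) * tt ^ m') := Nat.add_le_add e7 hFp'
      _ = (m' + 1) * (n ^ (m' + 1) * tt ^ m') := by ring
  calc X.edgeSet.ncard ^ (m' + 1) ≤ (D * (m' + 1) ^ 2 * (n + F)) ^ (m' + 1) :=
        Nat.pow_le_pow_left hE _
    _ = (D * (m' + 1) ^ 2) ^ (m' + 1) * (n + F) ^ (m' + 1) := mul_pow _ _ _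
    _ ≤ (D * (m' + 1) ^ 2) ^ (m' + 1) *
        (2 ^ (m' + 1) * ((m' + 1) * (n ^ (m' + 1) * tt ^ m'))) := Nat.mul_le_mul_left _ hpow
    _ = _ := by
        rw [mul_pow 2]
        ring

end Pool.Agent.TH468.BQ
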