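import Pool.Agent.TH468.BQ.Base

/-!
# Longer cycles: relators and wheels glued to an edge
-/

set_option autoImplicit false
set_option linter.unusedSectionVars false

namespace Pool.Agent.TH468.BQ

open Pool.Agent.H694R4.Law SimpleGraph Pool.Agent.TH468.EC

variable {Γ V : Type*} [Group Γ] [MulAction Γ V] {X : SimpleGraph V} {S : Sy Γ V} {M L : ℕ}

/-- change of the labels -/
def mp (f : Bool → ℕ → ℕ) (s : Bool) (w : ℕ → ℕ) (k : ℕ) : ℕ := f (sd s k) (w k)

/-- a neighbour of a base vertex -/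
def Ed (S : Sy Γ V) (s : Bool) (x z : ℕ) : V := S.γ s x z • S.b (!s) z

theorem Pv_one (s : Bool) (w : ℕ → ℕ) : Pv S s w 1 = Ed S s (w 0) (w 1) := by
  rw [Pv, Gv_one]
  rfl

/-- maps of labels that preserve the order -/
def Mn (q0 : ℕ) (f : Bool → ℕ → ℕ) : Prop := ∀ σ i j, i < j → j < q0 → f σ i < f σ j

/-- two walks with the same end, also after each change of the labels that preserves the order -/
structure Pat (S : Sy Γ V) (M L q0 : ℕ) (s : Bool) (A B : ℕ) (α β : ℕ → ℕ) : Prop where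
  len : A + B = L
  hB : 2 * B ≤ L
  hA : 2 * A ≤ L + 1
  hB1 : 1 ≤ B
  hA2 : 2 ≤ A
  nbα : NB α A
  nbβ : NB β B
  h0 : α 0 = β 0
  hd : α 1 ≠ β 1
  labα : Vd q0 α A
  labβ : Vd q0 β B
  map : ∀ f : Bool → ℕ → ℕ, Mn q0 f → (∀ σ, ∀ i < q0, f σ i < M) →
    Pv S s (mp f s α) A = Pv S s (mp f s β) B

theorem sd_two (s : Bool) (k : ℕ) : sd s (k + 2) = sd s k := by
  rw [sd_add, sd_even _ 2 rfl]

theorem Mn.ne {q0 : ℕ} {f : Bool → ℕ → ℕ} (hf : Mn q0 f) (σ : Bool) {i j : ℕ} (hi : i < q0)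
    (hj : j < q0) (hij : i ≠ j) : f σ i ≠ f σ j := by
  rcases Nat.lt_or_gt_of_ne hij with h | h
  · exact (hf σ i j h hj).ne
  · exact (hf σ j i h hi).ne'

theorem Pat.rl {q0 : ℕ} {s : Bool} {A B : ℕ} {α β : ℕ → ℕ} (P : Pat S M L q0 s A B α β)
    (f : Bool → ℕ → ℕ) (hf : Mn q0 f) (hM : ∀ σ, ∀ i < q0, f σ i < M) :
    Rl S M L s A B (mp f s α) (mp f s β) := by
  have hA2 := P.hA2
  have hB1 := P.hB1
  refine ⟨P.len, P.hB, P.hA, P.hB1, P.hA2, ?_, ?_, ?_, ?_, ?_, ?_, P.map f hf hM⟩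
  · intro k hk
    unfold mp
    rw [sd_two]
    exact hf.ne _ (P.labα k (by omega)) (P.labα (k + 2) hk) (P.nbα k hk)
  · intro k hk
    unfold mp
    rw [sd_two]
    exact hf.ne _ (P.labβ k (by omega)) (P.labβ (k + 2) hk) (P.nbβ k hk)
  · unfold mp
    rw [P.h0]
  · unfold mp
    exact hf.ne _ (P.labα 1 (by omega)) (P.labβ 1 hB1) P.hd
  · intro k hk
    exact hM _ _ (P.labα k hk)
  · intro k hk
    exact hM _ _ (P.labβ k hk)

/-- the state -/
def St (X : SimpleGraph V) (S : Sy Γ V) (s : Bool) (x : ℕ) (y : V) (n z : ℕ) : Prop :=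
  1 ≤ n ∧ ∃ p : ℕ → V, PathF X n p ∧ p 0 = S.b s x ∧ p 1 = Ed S s x z ∧ p n = y

theorem splice {n m : ℕ} {p q : ℕ → V} {s : Bool} {x : ℕ} {y : V} {z' : ℕ} (hn : 1 ≤ n)
    (hp : PathF X n p) (hp0 : p 0 = S.b s x) (hpn : p n = y) (hm : 1 ≤ m) (hq : PathF X m q)
    (hq0 : q 0 = S.b s x) (hq1 : q 1 = Ed S s x z') (hqm : q m = p 1)
    (hav : ∀ i, 1 ≤ i → i < m → ∀ j ≤ n, q i ≠ p j) : St X S s x y (m + (n - 1)) z' := by
  refine ⟨by omega, cat m q (fun i => p (i + 1)), PathF.cat hq (hp.shift 1 hn) ?_ ?_, ?_, ?_, ?_⟩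
  · simpa using hqm
  · intro i hi j hj
    rcases Nat.eq_zero_or_pos i with h | h
    · subst h
      rw [hq0, ← hp0]
      exact hp.2 0 (j + 1) (by omega) (by omega)
    · exact hav i h hi _ (by omega)
  · unfold cat
    rw [if_pos (by omega)]
    exact hq0
  · unfold cat
    rw [if_pos (by omega)]
    exact hq1
  · unfold cat
    split_ifs with h
    · have h1 : n = 1 := by omega
      subst h1
      rw [show m + (1 - 1) = m by omega, hqm, hpn]
    · simp only
      rw [show m + (n - 1) - m + 1 = n by omega]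
      exact hpn

theorem card_image_le' {W : Type*} [DecidableEq W] (p : ℕ → W) (n : ℕ) :
    ((Finset.range n).image p).card ≤ n :=
  Finset.card_image_le.trans (by simp)

theorem not_self (s : Bool) : (!s) ≠ s := by cases s <;> simp

open Classical in
/-- a relator with a given edge, that avoids a finite set -/
theorem one_rel {q0 : ℕ} (D : Dt X S M L) {s : Bool} {A B : ℕ} {α β : ℕ → ℕ}
    (P : Pat S M L q0 s A B α β) (x z R : ℕ) (F : Finset V) (hR : (L - 2) * F.card < R)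
    (hx : q0 * R ≤ x) (hx2 : x + q0 * R < M) (hz : q0 * R ≤ z) (hz2 : z + q0 * R < M) :
    ∃ f : Bool → ℕ → ℕ, f s (α 0) = x ∧ f (!s) (α 1) = z ∧ Mn q0 f ∧
      (∀ i < q0, x ≤ f s i + q0 * R ∧ f s i ≤ x + q0 * R) ∧
      (∀ i < q0, z ≤ f (!s) i + q0 * R ∧ f (!s) i ≤ z + q0 * R) ∧
      Rl S M L s A B (mp f s α) (mp f s β) ∧
      ∀ i, 1 ≤ i → i ≤ L - 2 → qf S s L B (mp f s α) (mp f s β) i ∉ F := by
  have hA2 := P.hA2
  have hB1 := P.hB1
  have l0 := P.labα 0 (by omega)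
  have l1 := P.labα 1 (by omega)
  have l2 := P.labα 2 hA2
  have lβ := P.labβ 1 hB1
  obtain ⟨g, g1, g2, g3, g4⟩ := lab1 q0 R (α 0) x l0 hx
  obtain ⟨h, h1, h2, h3, h4⟩ := lab1 q0 R (α 1) z l1 hz
  set f : ℕ → Bool → ℕ → ℕ := fun r σ => if σ = s then g r else h r with hf
  have fs : ∀ r, f r s = g r := fun r => by simp [hf]
  have fn : ∀ r, f r (!s) = h r := fun r => by
    simp only [hf]
    rw [if_neg (not_self s)]
  have hσ : ∀ σ : Bool, σ = s ∨ σ = !s := by
    intro σ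
    cases σ <;> cases s <;> simp
  have hMn : ∀ r < R, Mn q0 (f r) := by
    intro r hr σ i j hij hj
    rcases hσ σ with h5 | h5
    · rw [h5, fs]
      exact g2 r hr i j hij hj
    · rw [h5, fn]
      exact h2 r hr i j hij hj
  have hM : ∀ r < R, ∀ σ, ∀ i < q0, f r σ i < M := by
    intro r hr σ i hi
    rcases hσ σ with h5 | h5
    · rw [h5, fs]
      have := (g3 r hr i hi).2
      omega
    · rw [h5, fn]
      have := (h3 r hr i hi).2
      omega
  have hrl : ∀ r < R, Rl S M L s A B (mp (f r) s α) (mp (f r) s β) :=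
    fun r hr => P.rl (f r) (hMn r hr) (hM r hr)
  obtain ⟨r, hr, hr2⟩ := pick R F (Finset.Icc 1 (L - 2))
    (fun r i => qf S s L B (mp (f r) s α) (mp (f r) s β) i) (by
      intro i hi r hr r' hr' hne
      rw [Finset.mem_Icc] at hi
      refine Rl.ne D (hrl r hr) (hrl r' hr') ?_ ?_ ?_ ?_ i hi.1 hi.2
      · change f r s (α 0) = f r' s (α 0)
        rw [fs, fs, g1 r hr, g1 r' hr']
      · change f r (!s) (α 1) = f r' (!s) (α 1)
        rw [fn, fn, h1 r hr, h1 r' hr']
      · unfold mp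
        rw [show sd s 2 = s from sd_even _ 2 rfl, fs, fs]
        exact g4 r hr r' hr' hne _ l2 (P.nbα 0 hA2).symm
      · change f r (!s) (β 1) ≠ f r' (!s) (β 1)
        rw [fn, fn]
        exact h4 r hr r' hr' hne _ lβ P.hd.symm) (by
      rw [Nat.card_Icc]
      simpa using hR)
  refine ⟨f r, ?_, ?_, hMn r hr, ?_, ?_, hrl r hr, fun i hi hi2 => ?_⟩
  · rw [fs]
    exact g1 r hr
  · rw [fn]
    exact h1 r hr
  · rw [fs]
    exact g3 r hr
  · rw [fn]
    exact h3 r hr
  · exact hr2 i (Finset.mem_Icc.mpr ⟨hi, hi2⟩)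

open Classical in
/-- one relator glued to the first edge -/
theorem step1 {q0 : ℕ} (D : Dt X S M L) {s : Bool} {A B : ℕ} {α β : ℕ → ℕ}
    (P : Pat S M L q0 s A B α β) {x : ℕ} {y : V} {n z : ℕ} (R : ℕ) (hR : (L - 2) * (n + 1) < R)
    (hx : q0 * R ≤ x) (hx2 : x + q0 * R < M)
    (hz : q0 * R ≤ z) (hz2 : z + q0 * R < M) (hSt : St X S s x y n z) :
    ∃ z', St X S s x y (n + (L - 2)) z' ∧ z ≤ z' + q0 * R ∧ z' ≤ z + q0 * R := by
  obtain ⟨hn, p, hp, hp0, hp1, hpn⟩ := hSt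
  have e1 := P.len
  have hA2 := P.hA2
  have hB1 := P.hB1
  obtain ⟨f, f1, f2, f3, f4, f5, f6, f7⟩ := one_rel D P x z R ((Finset.range (n + 1)).image p)
    (lt_of_le_of_lt (Nat.mul_le_mul_left _ (card_image_le' p (n + 1))) hR) hx hx2 hz hz2
  refine ⟨f (!s) (β 1), ?_, (f5 _ (P.labβ 1 hB1)).1, (f5 _ (P.labβ 1 hB1)).2⟩
  have hx0 : mp f s α 0 = x := f1
  have hβ0 : mp f s β 0 = x := by rw [← f6.h0, hx0]
  have h1 := splice (S := S) (X := X) (z' := f (!s) (β 1)) hn hp hp0 hpn (m := L - 1) (by omega)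
    (f6.path D) (by rw [f6.qf_zero, hx0]) (by
      rw [f6.qf_one, Pv_one, hβ0]
      rfl) (by
      rw [f6.qf_last, Pv_one, hx0, hp1]
      change Ed S s x (f (!s) (α 1)) = _
      rw [f2]) (by
      intro i hi hi2 j hj he
      exact f7 i hi (by omega) (by
        rw [Finset.mem_image]
        exact ⟨j, Finset.mem_range.mpr (by omega), he.symm⟩))
  rw [show L - 1 + (n - 1) = n + (L - 2) by omega] at h1
  exact h1

open Classical in
/-- two relators at the base vertex, with a new common label, between two given labels -/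
theorem close1 {q0 : ℕ} (D : Dt X S M L) {s : Bool} {A B : ℕ} {α β : ℕ → ℕ}
    (P : Pat S M L q0 s A B α β) (hB2 : 2 ≤ B) (x z1 z2 K R : ℕ) (hz : z1 ≠ z2)
    (hK1 : z1 ≤ z2 + K) (hK2 : z2 ≤ z1 + K) (hx : q0 * (2 * R) ≤ x)
    (hx2 : x + q0 * (2 * R) < M) (hroom : q0 * R * (K + 3) + K ≤ z2)
    (hroom2 : z2 + (q0 * R * (K + 3) + K) < M) (F : Finset V) (hR : 2 * (L - 2) * F.card < R) :
    ∃ f : ℕ → V, PathF X (2 * (L - 2)) f ∧ f 0 = Ed S s x z2 ∧
      f (2 * (L - 2)) = Ed S s x z1 ∧ ∀ i, 1 ≤ i → i < 2 * (L - 2) → f i ∉ F := by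
  have e1 := P.len
  have e2 := P.hB
  have hA2 := P.hA2
  have hB1 := P.hB1
  have l0 := P.labα 0 (by omega)
  have l1 := P.labα 1 (by omega)
  have l2 := P.labα 2 hA2
  have lβ := P.labβ 1 hB1
  have lβ2 := P.labβ 2 hB2
  obtain ⟨G, G1, G2, G3, G4⟩ := lab1 q0 (2 * R) (α 0) x l0 hx
  obtain ⟨g, g', h1, h2, h3, h4, h5⟩ := lab2 q0 R (α 1) (β 1) z1 z2 K l1 lβ P.hd hz hK1 hK2 hroom
  set f : ℕ → Bool → ℕ → ℕ := fun r σ => if σ = s then G (2 * r) else g r with hf
  set f' : ℕ → Bool → ℕ → ℕ := fun r σ => if σ = s then G (2 * r + 1) else g' r with hf'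
  have fs : ∀ r, f r s = G (2 * r) := fun r => by simp [hf]
  have fn : ∀ r, f r (!s) = g r := fun r => by
    simp only [hf]
    rw [if_neg (not_self s)]
  have fs' : ∀ r, f' r s = G (2 * r + 1) := fun r => by simp [hf']
  have fn' : ∀ r, f' r (!s) = g' r := fun r => by
    simp only [hf']
    rw [if_neg (not_self s)]
  have hσ : ∀ σ : Bool, σ = s ∨ σ = !s := by
    intro σ
    cases σ <;> cases s <;> simp
  have hs2 : sd s 2 = s := sd_even _ 2 rfl
  have hrl : ∀ r < R, Rl S M L s A B (mp (f r) s α) (mp (f r) s β) := by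
    intro r hr
    refine P.rl (f r) ?_ ?_
    · intro σ i j hij hj
      rcases hσ σ with h6 | h6
      · rw [h6, fs]
        exact G2 _ (by omega) i j hij hj
      · rw [h6, fn]
        exact (h2 r hr i j hij hj).1
    · intro σ i hi
      rcases hσ σ with h6 | h6
      · rw [h6, fs]
        have := (G3 (2 * r) (by omega) i hi).2
        omega
      · rw [h6, fn]
        have := (h3 r hr i hi).1
        omega
  have hrl' : ∀ r < R, Rl S M L s A B (mp (f' r) s α) (mp (f' r) s β) := by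
    intro r hr
    refine P.rl (f' r) ?_ ?_
    · intro σ i j hij hj
      rcases hσ σ with h6 | h6
      · rw [h6, fs']
        exact G2 _ (by omega) i j hij hj
      · rw [h6, fn']
        exact (h2 r hr i j hij hj).2
    · intro σ i hi
      rcases hσ σ with h6 | h6
      · rw [h6, fs']
        have := (G3 (2 * r + 1) (by omega) i hi).2
        omega
      · rw [h6, fn']
        have := (h3 r hr i hi).2
        omega
  obtain ⟨r, hr, hr2⟩ := pick R F ((Finset.univ : Finset Bool) ×ˢ Finset.Icc 1 (L - 2))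
    (fun r y => if y.1 then qf S s L B (mp (f r) s α) (mp (f r) s β) y.2
      else qf S s L B (mp (f' r) s α) (mp (f' r) s β) y.2) (by
      rintro ⟨y, i⟩ hi r hr r' hr' hne
      rw [Finset.mem_product, Finset.mem_Icc] at hi
      obtain ⟨-, hi⟩ := hi
      cases y
      · simp only [Bool.false_eq_true, if_false]
        refine Rl.ne D (hrl' r hr) (hrl' r' hr') ?_ ?_ ?_ ?_ i hi.1 hi.2
        · change f' r s (α 0) = f' r' s (α 0)
          rw [fs', fs', G1 _ (by omega), G1 _ (by omega)]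
        · change f' r (!s) (α 1) = f' r' (!s) (α 1)
          rw [fn', fn', (h1 r hr).2.1, (h1 r' hr').2.1]
        · unfold mp
          rw [hs2, fs', fs']
          exact G4 _ (by omega) _ (by omega) (by omega) _ l2 (P.nbα 0 hA2).symm
        · change f' r (!s) (β 1) ≠ f' r' (!s) (β 1)
          rw [fn', fn']
          exact (h4 r hr r' hr' hne _ lβ P.hd.symm).2
      · simp only [if_true]
        refine Rl.ne D (hrl r hr) (hrl r' hr') ?_ ?_ ?_ ?_ i hi.1 hi.2
        · change f r s (α 0) = f r' s (α 0)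
          rw [fs, fs, G1 _ (by omega), G1 _ (by omega)]
        · change f r (!s) (α 1) = f r' (!s) (α 1)
          rw [fn, fn, (h1 r hr).1, (h1 r' hr').1]
        · unfold mp
          rw [hs2, fs, fs]
          exact G4 _ (by omega) _ (by omega) (by omega) _ l2 (P.nbα 0 hA2).symm
        · change f r (!s) (β 1) ≠ f r' (!s) (β 1)
          rw [fn, fn]
          exact (h4 r hr r' hr' hne _ lβ P.hd.symm).1) (by
      rw [Finset.card_product, Nat.card_Icc]
      simpa using hR)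
  have R2 := hrl r hr
  have R3 := hrl' r hr
  have hq2 : ∀ i, 1 ≤ i → i ≤ L - 2 → qf S s L B (mp (f r) s α) (mp (f r) s β) i ∉ F := by
    intro i hi hi2
    have := hr2 (true, i) (Finset.mem_product.mpr ⟨Finset.mem_univ _, Finset.mem_Icc.mpr
      ⟨hi, hi2⟩⟩)
    simpa using this
  have hq3 : ∀ i, 1 ≤ i → i ≤ L - 2 → qf S s L B (mp (f' r) s α) (mp (f' r) s β) i ∉ F := by
    intro i hi hi2
    have := hr2 (false, i) (Finset.mem_product.mpr ⟨Finset.mem_univ _, Finset.mem_Icc.mpr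
      ⟨hi, hi2⟩⟩)
    simpa using this
  obtain ⟨k1, k2, k3⟩ := h1 r hr
  have a0 : mp (f r) s α 0 = x := by
    change f r s (α 0) = x
    rw [fs, G1 _ (by omega)]
  have a0' : mp (f' r) s α 0 = x := by
    change f' r s (α 0) = x
    rw [fs', G1 _ (by omega)]
  have a1 : mp (f r) s α 1 = z2 := by
    change f r (!s) (α 1) = z2
    rw [fn, k1]
  have a1' : mp (f' r) s α 1 = z1 := by
    change f' r (!s) (α 1) = z1
    rw [fn', k2]
  have b1 : mp (f r) s β 1 = mp (f' r) s β 1 := by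
    change f r (!s) (β 1) = f' r (!s) (β 1)
    rw [fn, fn', k3]
  have hdisj : ∀ i j, 1 ≤ i → i ≤ L - 1 → 1 ≤ j → j ≤ L - 1 → ¬ (i = 1 ∧ j = 1) →
      qf S s L B (mp (f r) s α) (mp (f r) s β) i ≠
        qf S s L B (mp (f' r) s α) (mp (f' r) s β) j := by
    refine Rl.disj D R2 R3 (by rw [a0, a0']) (by rw [a1, a1']; exact hz.symm) b1 ?_ hB2
    unfold mp
    rw [hs2, fs, fs']
    exact G4 _ (by omega) _ (by omega) (by omega) _ lβ2 (by
      rw [P.h0]
      exact (P.nbβ 0 hB2).symm)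
  refine ⟨cat (L - 2) (fun i => qf S s L B (mp (f r) s α) (mp (f r) s β) (L - 1 - i))
    (fun j => qf S s L B (mp (f' r) s α) (mp (f' r) s β) (j + 1)), ?_, ?_, ?_, ?_⟩
  · have p1 := (R2.path D).rev.trunc (L - 2) (by omega)
    have p2 := (R3.path D).shift 1 (by omega)
    rw [show L - 1 - 1 = L - 2 by omega] at p2
    have p3 := PathF.cat p1 p2 (by
      rw [show L - 1 - (L - 2) = 1 by omega, R2.qf_one, zero_add, R3.qf_one, Pv_one, Pv_one, b1,
        ← R2.h0, ← R3.h0, a0, a0']) (by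
      intro i hi j hj
      exact hdisj _ _ (by omega) (by omega) (by omega) (by omega) (by omega))
    rw [show 2 * (L - 2) = L - 2 + (L - 2) by omega]
    exact p3
  · unfold cat
    rw [if_pos (by omega)]
    simp only [Nat.sub_zero]
    rw [R2.qf_last, Pv_one, a0, a1]
  · unfold cat
    rw [if_neg (by omega)]
    simp only
    rw [show 2 * (L - 2) - (L - 2) + 1 = L - 1 by omega, R3.qf_last, Pv_one, a0', a1']
  · intro i hi hi2
    unfold cat
    split_ifs with h
    · exact hq2 _ (by omega) (by omega)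
    · exact hq3 _ (by omega) (by omega)

theorem PathF.smul (haut : ∀ (g : Γ) (a c : V), X.Adj a c → X.Adj (g • a) (g • c)) {n : ℕ}
    {p : ℕ → V} (hp : PathF X n p) (g : Γ) : PathF X n (fun i => g • p i) :=
  ⟨fun i hi => haut g _ _ (hp.1 i hi), fun i j hij hj he =>
    hp.2 i j hij hj (smul_left_cancel g he)⟩

open Classical in
theorem close {q0 : ℕ} (D : Dt X S M L) {s : Bool} {A B : ℕ} {α β : ℕ → ℕ}
    (P : Pat S M L q0 s A B α β) (hB2 : 2 ≤ B) (x z1 z2 K R : ℕ) (hz : z1 ≠ z2)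
    (hK1 : z1 ≤ z2 + K) (hK2 : z2 ≤ z1 + K) (hx : q0 * (2 * R) ≤ x)
    (hx2 : x + q0 * (2 * R) < M) (hroom : q0 * R * (K + 3) + K ≤ z2)
    (hroom2 : z2 + (q0 * R * (K + 3) + K) < M) (g : Γ) (F : Finset V)
    (hR : 2 * (L - 2) * F.card < R) :
    ∃ f : ℕ → V, PathF X (2 * (L - 2)) f ∧ f 0 = g • Ed S s x z2 ∧
      f (2 * (L - 2)) = g • Ed S s x z1 ∧ ∀ i, 1 ≤ i → i < 2 * (L - 2) → f i ∉ F := by
  obtain ⟨f, h1, h2, h3, h4⟩ := close1 D P hB2 x z1 z2 K R hz hK1 hK2 hx hx2 hroom hroom2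
    (F.image (fun x => g⁻¹ • x))
    (lt_of_le_of_lt (Nat.mul_le_mul_left _ Finset.card_image_le) hR)
  refine ⟨fun i => g • f i, PathF.smul D.aut h1 g, by simp only [h2], by simp only [h3], ?_⟩
  intro i hi hi2 hF
  apply h4 i hi hi2
  rw [Finset.mem_image]
  exact ⟨_, hF, by simp⟩

open Classical in
/-- a wheel of three relators glued to the first edge -/
theorem wheel {q0 : ℕ} (D : Dt X S M L) {s : Bool} {A B : ℕ} {α β : ℕ → ℕ}
    (P : Pat S M L q0 s A B α β) (hL5 : 5 ≤ L) {x : ℕ} {y : V} {n z : ℕ} (R R' : ℕ)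
    (hR : (L - 2) * (n + 1) < R) (hR' : 2 * (L - 2) * (n + 1 + L) < R')
    (hx : q0 * R + (q0 * R' * (2 * (q0 * R) + 3) + 2 * (q0 * R)) ≤ x)
    (hx2 : x + (q0 * R + (q0 * R' * (2 * (q0 * R) + 3) + 2 * (q0 * R))) < M)
    (hz : q0 * R + (q0 * R' * (2 * (q0 * R) + 3) + 2 * (q0 * R)) ≤ z)
    (hz2 : z + (q0 * R + (q0 * R' * (2 * (q0 * R) + 3) + 2 * (q0 * R))) < M)
    (hSt : St X S s x y n z) :
    ∃ z', St X S s x y (n + (3 * (L - 2) - 2)) z' ∧ z ≤ z' + q0 * R ∧ z' ≤ z + q0 * R := by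
  obtain ⟨hn, p, hp, hp0, hp1, hpn⟩ := hSt
  have e1 := P.len
  have e2 := P.hB
  have e3 := P.hA
  have hA3 : 3 ≤ A := by omega
  have hB2 : 2 ≤ B := by omega
  obtain ⟨f, f1, f2, f3, f4, f5, f6, f7⟩ := one_rel D P x z R ((Finset.range (n + 1)).image p)
    (lt_of_le_of_lt (Nat.mul_le_mul_left _ (card_image_le' p (n + 1))) hR) (by omega) (by omega)
    (by omega) (by omega)
  have l1 := P.labα 1 (by omega)
  have l2 := P.labα 2 (by omega)
  have l3 := P.labα 3 hA3
  have lβ := P.labβ 1 (by omega)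
  refine ⟨f (!s) (β 1), ?_, (f5 _ lβ).1, (f5 _ lβ).2⟩
  have hs2 : sd s 2 = s := sd_even _ 2 rfl
  have hx0 : mp f s α 0 = x := f1
  have hz1 : mp f s α 1 = z := f2
  have hβ0 : mp f s β 0 = x := by rw [← f6.h0, hx0]
  have b2 := f4 _ l2
  have b3 := f5 _ l3
  have b1 := f5 _ l1
  have hm2 : mp f s α 2 = f s (α 2) := by
    unfold mp
    rw [hs2]
  have hm3 : mp f s α 3 = f (!s) (α 3) := by
    unfold mp
    have : sd s 3 = !s := sd_odd _ 3 rfl
    rw [this]
  have hne13 : f (!s) (α 1) ≠ f (!s) (α 3) := f3.ne _ l1 l3 (P.nbα 1 hA3)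
  have hK2 : q0 * (2 * R') + q0 * R ≤
      q0 * R + (q0 * R' * (2 * (q0 * R) + 3) + 2 * (q0 * R)) := by
    have : q0 * (2 * R') ≤ q0 * R' * (2 * (q0 * R) + 3) := by
      rw [show q0 * (2 * R') = q0 * R' * 2 by ring]
      exact Nat.mul_le_mul_left _ (by omega)
    omega
  set Q := qf S s L B (mp f s α) (mp f s β) with hQ
  obtain ⟨c, c1, c2, c3, c4⟩ := close D P hB2 (f s (α 2)) (f (!s) (α 1)) (f (!s) (α 3))
    (2 * (q0 * R)) R' hne13 (by omega) (by omega) (by omega) (by omega) (by omega) (by omega)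
    (Gv S s (mp f s α) 2) ((Finset.range (n + 1)).image p ∪ (Finset.range L).image Q)
    (lt_of_le_of_lt (Nat.mul_le_mul_left _ ((Finset.card_union_le _ _).trans
      (Nat.add_le_add (card_image_le' p (n + 1)) (card_image_le' Q L)))) hR')
  have hQp := f6.path D
  rw [← hQ] at hQp
  have hQlast : Q (L - 1) = Ed S s x z := by
    rw [hQ, f6.qf_last, Pv_one, hx0, hz1]
  have hQ3 : Q (L - 3) = c 0 := by
    rw [c2, hQ]
    unfold qf
    rw [if_neg (by omega), show L - (L - 3) = 2 + 1 by omega, Pv_add, Pv_one, hs2]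
    change _ • Ed S s (mp f s α 2) (mp f s α 3) = _
    rw [hm2, hm3]
  have hQl : Q (L - 1) = c (2 * (L - 2)) := by
    rw [c3, hQlast, f2]
    have h1 : Gv S s (mp f s α) 2 = S.γ s x z * S.γ (!s) z (f s (α 2)) := by
      rw [Gv, Gv_one, hx0, hz1, hm2]
      rfl
    rw [h1, Ed, Ed, D.inv, mul_smul, inv_smul_smul]
  have hcat := PathF.cat (hQp.trunc (L - 3) (by omega)) c1 hQ3 (by
    intro i hi j hj
    rcases Nat.eq_zero_or_pos j with h | h
    · subst h
      rw [← hQ3]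
      exact hQp.2 i (L - 3) hi (by omega)
    · by_cases h2 : j = 2 * (L - 2)
      · subst h2
        rw [← hQl]
        exact hQp.2 i (L - 1) (by omega) le_rfl
      · intro he
        apply c4 j h (by omega)
        rw [← he, Finset.mem_union]
        right
        rw [Finset.mem_image]
        exact ⟨i, Finset.mem_range.mpr (by omega), rfl⟩)
  have h1 := splice (S := S) (X := X) (z' := f (!s) (β 1)) hn hp hp0 hpn
    (m := L - 3 + 2 * (L - 2)) (by omega) hcat (by
      unfold cat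
      rw [if_pos (by omega), hQ, f6.qf_zero, hx0]) (by
      unfold cat
      rw [if_pos (by omega), hQ, f6.qf_one, Pv_one, hβ0]
      rfl) (by
      unfold cat
      rw [if_neg (by omega), Nat.add_sub_cancel_left, ← hQl, hQlast, hp1]) (by
      intro i hi hi2 j hj he
      have hmem : p j ∈ (Finset.range (n + 1)).image p := by
        rw [Finset.mem_image]
        exact ⟨j, Finset.mem_range.mpr (by omega), rfl⟩
      unfold cat at he
      split_ifs at he with h
      · exact f7 i hi (by omega) (by rw [he]; exact hmem)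
      · exact c4 (i - (L - 3)) (by omega) (by omega) (by
          rw [he, Finset.mem_union]
          exact Or.inl hmem))
  rw [show L - 3 + 2 * (L - 2) + (n - 1) = n + (3 * (L - 2) - 2) by omega] at h1
  exact h1

end Pool.Agent.TH468.BQ
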