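import Pool.Agent.H685R2.DIM.Ramsey
import Pool.Agent.TH468.BQ.Step

/-!
# Homogeneous systems
-/

set_option autoImplicit false
set_option linter.unusedSectionVars false

namespace Pool.Agent.TH468.BQ

open Pool.Agent.H694R4.Law SimpleGraph Pool.Agent.TH468.EC

variable {Γ V : Type*} [Group Γ] [MulAction Γ V]

/-- new labels, the same for both sides -/
def Sy.comp (S : Sy Γ V) (θ : ℕ → ℕ) : Sy Γ V where
  b s i := S.b s (θ i)
  γ s i j := S.γ s (θ i) (θ j)

/-- new labels for both sides -/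
def Sy.two (S : Sy Γ V) (η : Bool → ℕ → ℕ) : Sy Γ V where
  b s i := S.b s (η s i)
  γ s i j := S.γ s (η s i) (η (!s) j)

theorem Gv_comp (S : Sy Γ V) (θ : ℕ → ℕ) (s : Bool) (w : ℕ → ℕ) (k : ℕ) :
    Gv (S.comp θ) s w k = Gv S s (fun i => θ (w i)) k := by
  induction k with
  | zero => rfl
  | succ k ih =>
    rw [Gv, Gv, ih]
    rfl

theorem Cl_comp (S : Sy Γ V) (θ : ℕ → ℕ) (s : Bool) (w : ℕ → ℕ) (n : ℕ) :
    Cl (S.comp θ) s w n ↔ Cl S s (fun i => θ (w i)) n := by
  unfold Cl Pv
  rw [Gv_comp]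
  rfl

theorem Gv_two (S : Sy Γ V) (η : Bool → ℕ → ℕ) (s : Bool) (w : ℕ → ℕ) (k : ℕ) :
    Gv (S.two η) s w k = Gv S s (mp η s w) k := by
  induction k with
  | zero => rfl
  | succ k ih =>
    rw [Gv, Gv, ih]
    have h1 : sd s (k + 1) = !(sd s k) := by
      rw [sd_add]
      rfl
    unfold mp
    rw [h1]
    rfl

theorem Cl_two (S : Sy Γ V) (η : Bool → ℕ → ℕ) (s : Bool) (w : ℕ → ℕ) (n : ℕ) :
    Cl (S.two η) s w n ↔ Cl S s (mp η s w) n := by
  unfold Cl Pv
  rw [Gv_two]
  rfl

theorem Cl_congr (S : Sy Γ V) (s : Bool) (w w' : ℕ → ℕ) (n : ℕ) (h : ∀ i ≤ n, w i = w' i) :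
    Cl S s w n ↔ Cl S s w' n := by
  unfold Cl
  rw [Pv_congr S s w w' n h, h 0 (by omega)]

/-- homogeneous systems -/
def HomoS (S : Sy Γ V) (M q : ℕ) : Prop :=
  ∀ (s : Bool) (w : ℕ → ℕ) (n : ℕ) (f : ℕ → ℕ), n ≤ q → (∀ k ≤ n, w k < M) →
    (∀ k ≤ n, f (w k) < M) → (∀ k ≤ n, ∀ k' ≤ n, w k < w k' → f (w k) < f (w k')) →
    (Cl S s w n ↔ Cl S s (fun i => f (w i)) n)

/-- homogeneous systems, both sides -/
def HomoB (S : Sy Γ V) (M q : ℕ) : Prop :=
  ∀ (s : Bool) (w : ℕ → ℕ) (n : ℕ) (f : Bool → ℕ → ℕ), n ≤ q → (∀ k ≤ n, w k < M) →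
    (∀ k ≤ n, f (sd s k) (w k) < M) →
    (∀ k ≤ n, ∀ k' ≤ n, sd s k = sd s k' → w k < w k' → f (sd s k) (w k) < f (sd s k) (w k')) →
    (Cl S s w n ↔ Cl S s (mp f s w) n)

/-- the pattern coded by `p` -/
def ext (q : ℕ) (p : Fin (q + 1) → Fin (q + 1)) (k : ℕ) : ℕ :=
  if h : k < q + 1 then (p ⟨k, h⟩ : ℕ) else 0

open Classical in
theorem ramS (M q : ℕ) : ∃ N : ℕ, ∀ (Γ V : Type) [Group Γ] [MulAction Γ V] (S : Sy Γ V),
    ∃ θ : ℕ → ℕ, (∀ i < M, θ i < N) ∧ (∀ i < M, ∀ j < M, i < j → θ i < θ j) ∧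
      HomoS (S.comp θ) M q := by
  obtain ⟨N, hN⟩ := Pool.Agent.H685R2.DIM.ramsey_gen
    ((Bool × Fin (q + 1) × (Fin (q + 1) → Fin (q + 1))) → Bool) (q + 1) (M + (q + 1))
  refine ⟨N, fun Γ V _ _ S => ?_⟩
  obtain ⟨T', hT'S, hT'c, κ, hκ⟩ := hN (Finset.range N)
    (fun l => fun x => decide (Cl (S.comp (fun i => l.getD i 0)) x.1 (ext q x.2.2) x.2.1))
    (by simp)
  obtain ⟨θ, hθ1, hθ2⟩ : ∃ θ : ℕ → ℕ, (∀ i < M + (q + 1), θ i ∈ T') ∧
      (∀ i < M + (q + 1), ∀ j < M + (q + 1), i < j → θ i < θ j) := by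
    refine ⟨fun i => if h : i < M + (q + 1) then T'.orderEmbOfFin hT'c ⟨i, h⟩ else 0, ?_, ?_⟩
    · intro i hi
      simp only []
      rw [dif_pos hi]
      exact Finset.orderEmbOfFin_mem _ _ _
    · intro i hi j hj hij
      simp only []
      rw [dif_pos hi, dif_pos hj]
      exact (T'.orderEmbOfFin hT'c).strictMono hij
  refine ⟨θ, fun i hi => Finset.mem_range.1 (hT'S (hθ1 i (by omega))),
    fun i hi j hj hij => hθ2 i (by omega) j (by omega) hij, ?_⟩
  intro s w n f hn hu2 hu3 hu4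
  set F : List ℕ := ((Finset.range (n + 1)).image w).sort (· ≤ ·) with hF
  have hFmem : ∀ x, x ∈ F ↔ ∃ k ≤ n, w k = x := by
    intro x
    rw [hF, Finset.mem_sort, Finset.mem_image]
    constructor
    · rintro ⟨k, hk, rfl⟩
      exact ⟨k, by rw [Finset.mem_range] at hk; omega, rfl⟩
    · rintro ⟨k, hk, rfl⟩
      exact ⟨k, Finset.mem_range.mpr (by omega), rfl⟩
  have hFlen : F.length ≤ q + 1 := by
    rw [hF, Finset.length_sort]
    refine Finset.card_image_le.trans ?_
    rw [Finset.card_range]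
    omega
  have hFp : F.Pairwise (· < ·) := (Finset.sortedLT_sort _).pairwise
  have key : ∀ G : List ℕ, G.length = F.length → G.Pairwise (· < ·) → (∀ x ∈ G, x < M) →
      (fun x : Bool × Fin (q + 1) × (Fin (q + 1) → Fin (q + 1)) => decide (Cl (S.comp (fun i =>
        ((G ++ List.range' M (q + 1 - F.length)).map θ).getD i 0)) x.1
          (ext q x.2.2) x.2.1)) = κ := by
    intro G hG1 hG2 hG3
    refine hκ ((G ++ List.range' M (q + 1 - F.length)).map θ) ?_ ?_ ?_
    · rw [List.length_map, List.length_append, List.length_range', hG1]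
      omega
    · rw [List.pairwise_map]
      have h1 : (G ++ List.range' M (q + 1 - F.length)).Pairwise (· < ·) := by
        rw [List.pairwise_append]
        refine ⟨hG2, List.pairwise_lt_range', ?_⟩
        intro a ha b hb
        have := hG3 a ha
        rw [List.mem_range'_1] at hb
        omega
      refine h1.imp_of_mem ?_
      intro a b ha hb hab
      refine hθ2 a ?_ b ?_ hab
      · rcases List.mem_append.1 ha with h | h
        · have := hG3 a h; omega
        · rw [List.mem_range'_1] at h; omega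
      · rcases List.mem_append.1 hb with h | h
        · have := hG3 b h; omega
        · rw [List.mem_range'_1] at h; omega
    · intro x hx
      obtain ⟨a, ha, rfl⟩ := List.mem_map.1 hx
      refine hθ1 a ?_
      rcases List.mem_append.1 ha with h | h
      · have := hG3 a h; omega
      · rw [List.mem_range'_1] at h; omega
  have hidx : ∀ k ≤ n, F.idxOf (w k) < F.length := fun k hk =>
    List.idxOf_lt_length_iff.2 ((hFmem _).2 ⟨k, hk, rfl⟩)
  have hget : ∀ G : List ℕ, G.length = F.length → ∀ k ≤ n,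
      ((G ++ List.range' M (q + 1 - F.length)).map θ).getD (F.idxOf (w k)) 0 =
        θ (G.getD (F.idxOf (w k)) 0) := by
    intro G hG k hk
    have h1 := hidx k hk
    have h2 : F.idxOf (w k) < G.length := by omega
    rw [List.getD_eq_getElem _ _ (by simp; omega), List.getD_eq_getElem _ _ h2,
      List.getElem_map, List.getElem_append_left h2]
  have hgetF : ∀ k ≤ n, F.getD (F.idxOf (w k)) 0 = w k := by
    intro k hk
    have h1 := hidx k hk
    rw [List.getD_eq_getElem _ _ h1]
    exact List.getElem_idxOf h1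
  have hgetf : ∀ k ≤ n, (F.map f).getD (F.idxOf (w k)) 0 = f (w k) := by
    intro k hk
    have h1 := hidx k hk
    rw [List.getD_eq_getElem _ _ (by rw [List.length_map]; exact h1), List.getElem_map]
    rw [List.getElem_idxOf h1]
  set p : Fin (q + 1) → Fin (q + 1) := fun k =>
    if h : F.idxOf (w k) < q + 1 then ⟨F.idxOf (w k), h⟩ else 0 with hp
  have hext : ∀ k ≤ n, ext q p k = F.idxOf (w k) := by
    intro k hk
    have h1 := hidx k hk
    unfold ext
    rw [dif_pos (by omega)]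
    simp only [hp]
    rw [dif_pos (by omega)]
  have k1 := congrFun (key F rfl hFp (fun x hx => by
    obtain ⟨k, hk, rfl⟩ := (hFmem x).1 hx
    exact hu2 k hk)) (s, ⟨n, by omega⟩, p)
  have k2 := congrFun (key (F.map f) (by rw [List.length_map]) (by
    rw [List.pairwise_map]
    refine hFp.imp_of_mem ?_
    intro a b ha hb hab
    obtain ⟨k, hk, rfl⟩ := (hFmem a).1 ha
    obtain ⟨k', hk', rfl⟩ := (hFmem b).1 hb
    exact hu4 k hk k' hk' hab) (by
    intro x hx
    obtain ⟨y, hy, rfl⟩ := List.mem_map.1 hx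
    obtain ⟨k, hk, rfl⟩ := (hFmem y).1 hy
    exact hu3 k hk)) (s, ⟨n, by omega⟩, p)
  have k3 := k1.trans k2.symm
  simp only [] at k3
  rw [decide_eq_decide, Cl_comp, Cl_comp] at k3
  rw [Cl_comp, Cl_comp]
  refine (Cl_congr S s _ (fun i => θ (w i)) n ?_).symm.trans
    (k3.trans (Cl_congr S s _ (fun i => θ (f (w i))) n ?_))
  · intro i hi
    rw [hext i hi, hget F rfl i hi, hgetF i hi]
  · intro i hi
    rw [hext i hi, hget (F.map f) (by rw [List.length_map]) i hi, hgetf i hi]

/-- labels of the side `false` above the labels of the side `true` -/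
def kap (M : ℕ) (s : Bool) (i : ℕ) : ℕ := if s then i else M + i

theorem ramB (M q : ℕ) : ∃ N : ℕ, ∀ (Γ V : Type) [Group Γ] [MulAction Γ V] (S : Sy Γ V),
    ∃ η : Bool → ℕ → ℕ, (∀ s, ∀ i < M, η s i < N) ∧
      (∀ s, ∀ i < M, ∀ j < M, η s i = η s j → i = j) ∧ HomoB (S.two η) M q := by
  obtain ⟨N, hN⟩ := ramS (2 * M) q
  refine ⟨N, fun Γ V _ _ S => ?_⟩
  obtain ⟨θ, h1, h2, h3⟩ := hN Γ V S
  have hk : ∀ s, ∀ i < M, kap M s i < 2 * M := by
    intro s i hi
    cases s <;> simp [kap] <;> omega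
  refine ⟨fun s i => θ (kap M s i), fun s i hi => h1 _ (hk s i hi), ?_, ?_⟩
  · intro s i hi j hj he
    have h4 : kap M s i = kap M s j := by
      rcases Nat.lt_trichotomy (kap M s i) (kap M s j) with h5 | h5 | h5
      · exact absurd he (h2 _ (hk s i hi) _ (hk s j hj) h5).ne
      · exact h5
      · exact absurd he (h2 _ (hk s j hj) _ (hk s i hi) h5).ne'
    cases s <;> simp [kap] at h4 <;> exact h4
  · intro s w n f hn hw hf hm
    have e1 : ∀ w : ℕ → ℕ, Cl (S.two fun s i => θ (kap M s i)) s w n ↔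
        Cl (S.comp θ) s (mp (kap M) s w) n := by
      intro w
      rw [Cl_two, Cl_comp]
      rfl
    rw [e1, e1]
    have h4 := h3 s (mp (kap M) s w) n (fun c => if c < M then f true c else
      M + f false (c - M)) hn (fun k hk' => hk _ _ (hw k hk')) (by
        intro k hk'
        unfold mp
        have := hf k hk'
        have hwk := hw k hk'
        cases hs : sd s k
        · rw [hs] at this
          simp only [kap, Bool.false_eq_true, if_false]
          rw [if_neg (by omega), Nat.add_sub_cancel_left]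
          omega
        · rw [hs] at this
          simp only [kap, if_true]
          rw [if_pos hwk]
          omega) (by
        intro k hk1 k' hk2 hlt
        unfold mp at hlt ⊢
        have a1 := hf k hk1
        have a2 := hf k' hk2
        have b1 := hw k hk1
        have b2 := hw k' hk2
        have c1 := hm k hk1 k' hk2
        cases hs : sd s k <;> cases hs' : sd s k' <;> rw [hs] at a1 c1 <;> rw [hs'] at a2 c1 <;>
          rw [hs, hs'] at hlt <;> simp only [kap, Bool.false_eq_true, if_false, if_true] at hlt ⊢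
        · rw [if_neg (by omega), if_neg (by omega), Nat.add_sub_cancel_left,
            Nat.add_sub_cancel_left]
          have := c1 rfl (by omega)
          omega
        · omega
        · rw [if_pos b1, if_neg (by omega), Nat.add_sub_cancel_left]
          omega
        · rw [if_pos b1, if_pos b2]
          exact c1 rfl hlt)
    rw [h4]
    refine Cl_congr _ s _ _ n ?_
    intro i hi
    unfold mp
    have hwi := hw i hi
    cases hs : sd s i
    · simp only [kap, Bool.false_eq_true, if_false]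
      rw [if_neg (by omega), Nat.add_sub_cancel_left]
    · simp only [kap, if_true]
      rw [if_pos hwi]

open Classical in
/-- closed walks of minimal length -/
theorem exB {X : SimpleGraph V} (S : Sy Γ V) (M q q0 n1 : ℕ)
    (haut : ∀ (g : Γ) (a c : V), X.Adj a c → X.Adj (g • a) (g • c))
    (hinv : ∀ s i j, S.γ (!s) j i = (S.γ s i j)⁻¹)
    (hadj : ∀ s i j, i < M → j < M → X.Adj (S.b s i) (S.γ s i j • S.b (!s) j))
    (hinj : ∀ (s : Bool), ∀ y < M, ∀ i < M, ∀ j < M,
      S.γ s y i • S.b (!s) i = S.γ s y j • S.b (!s) j → i = j)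
    (hH : HomoB S M q) (hq : n1 ≤ q) (hq0 : n1 + 1 ≤ q0) (hM : q0 ≤ M)
    (hex : ∃ (s : Bool) (w : ℕ → ℕ) (n : ℕ), 1 ≤ n ∧ n ≤ n1 ∧ NB w n ∧ Vd q0 w n ∧
      Cl S s w n) :
    ∃ L, 3 ≤ L ∧ L ≤ n1 ∧ Dt X S M L ∧ ∃ (s : Bool) (A B : ℕ) (α β : ℕ → ℕ),
      Pat S M L q0 s A B α β := by
  set P : ℕ → Prop := fun n => ∃ (s : Bool) (w : ℕ → ℕ), 1 ≤ n ∧ NB w n ∧ Vd q0 w n ∧
    Cl S s w n with hP
  have hexP : ∃ n, P n := by
    obtain ⟨s, w, n, h1, _, h3, h4, h5⟩ := hex
    exact ⟨n, s, w, h1, h3, h4, h5⟩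
  obtain ⟨L, hL, hmin⟩ : ∃ n, P n ∧ ∀ j < n, ¬ P j :=
    ⟨Nat.find hexP, Nat.find_spec hexP, fun j hj => Nat.find_min hexP hj⟩
  have hLn1 : L ≤ n1 := by
    obtain ⟨s, w, n, h1, h2, h3, h4, h5⟩ := hex
    by_contra hcon
    exact hmin n (by omega) ⟨s, w, h1, h3, h4, h5⟩
  obtain ⟨s0, w, h1, h3, h4, h5⟩ := hL
  have hL3 : 3 ≤ L := by
    by_contra hcon
    rcases (show L = 1 ∨ L = 2 by omega) with h | h
    · subst h
      unfold Cl at h5
      rw [Pv_one] at h5
      have h6 := hadj s0 (w 0) (w 1) ((h4 0 (by omega)).trans_le hM) ((h4 1 le_rfl).trans_le hM)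
      unfold Ed at h5
      rw [h5] at h6
      exact h6.ne rfl
    · subst h
      unfold Cl at h5
      have e1 : Pv S s0 w 2 = S.γ s0 (w 0) (w 1) • S.γ (!s0) (w 1) (w 2) • S.b s0 (w 2) := by
        rw [Pv, Gv, Gv_one, mul_smul, sd_even _ 2 rfl]
        rfl
      rw [e1, smul_eq_iff_eq_inv_smul, ← hinv] at h5
      have h7 := hinj (!s0) (w 1) ((h4 1 (by omega)).trans_le hM) (w 2)
        ((h4 2 (by omega)).trans_le hM) (w 0) ((h4 0 (by omega)).trans_le hM)
        (by rw [Bool.not_not]; exact h5)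
      exact h3 0 (by omega) h7.symm
  have hNS : ∀ s w n, 1 ≤ n → n < L → NB w n → Vd M w n → ¬ Cl S s w n := by
    intro s' W n hW1 hW2 hW3 hW4 hW5
    set F := (Finset.range (n + 1)).image W with hF
    have hFm : ∀ k ≤ n, W k ∈ F := fun k hk =>
      Finset.mem_image_of_mem _ (Finset.mem_range.mpr (by omega))
    set f : ℕ → ℕ := fun i => (F.filter fun j => j < i).card with hf
    have hmono : ∀ k ≤ n, ∀ k' ≤ n, W k < W k' → f (W k) < f (W k') := by
      intro k hk k' hk' hij
      apply Finset.card_lt_card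
      rw [Finset.ssubset_iff_of_subset]
      · refine ⟨W k, ?_, ?_⟩
        · rw [Finset.mem_filter]
          exact ⟨hFm k hk, hij⟩
        · simp
      · intro x hx
        rw [Finset.mem_filter] at hx ⊢
        exact ⟨hx.1, hx.2.trans hij⟩
    have hfb : ∀ k ≤ n, f (W k) < q0 := by
      intro k hk
      have h7 : f (W k) < F.card := by
        apply Finset.card_lt_card
        rw [Finset.ssubset_iff_of_subset (Finset.filter_subset _ _)]
        exact ⟨W k, hFm k hk, by simp⟩
      have h8 : F.card ≤ n + 1 := Finset.card_image_le.trans (by simp)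
      omega
    have h9 := (hH s' W n (fun _ => f) (by omega) hW4 (fun k hk => (hfb k hk).trans_le hM)
      (fun k hk k' hk' _ hlt => hmono k hk k' hk' hlt)).mp hW5
    apply hmin n hW2
    refine ⟨s', mp (fun _ => f) s' W, hW1, ?_, fun k hk => hfb k hk, h9⟩
    intro k hk he
    change f (W k) = f (W (k + 2)) at he
    rcases Nat.lt_or_gt_of_ne (hW3 k hk) with h10 | h10
    · have := hmono k (by omega) (k + 2) hk h10
      omega
    · have := hmono (k + 2) hk k (by omega) h10
      omega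
  refine ⟨L, hL3, hLn1, ⟨haut, hinv, hadj, hNS⟩, ?_⟩
  obtain ⟨m, hm⟩ : ∃ m, m = L / 2 := ⟨_, rfl⟩
  refine ⟨sd s0 m, L - m, m, fun k => w (m + k), fun k => w (m - k), by omega, by omega,
    by omega, by omega, by omega, ?_, ?_, rfl, ?_, ?_, ?_, ?_⟩
  · intro k hk
    have := h3 (m + k) (by omega)
    rw [show m + k + 2 = m + (k + 2) by ring] at this
    exact this
  · intro k hk
    have := h3 (m - (k + 2)) (by omega)
    rw [show m - (k + 2) + 2 = m - k by omega] at this
    exact this.symm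
  · have := h3 (m - 1) (by omega)
    rw [show m - 1 + 2 = m + 1 by omega] at this
    exact this.symm
  · intro k hk
    exact h4 _ (by omega)
  · intro k hk
    exact h4 _ (by omega)
  · intro f hf hfM
    have h6 := (hH s0 w L f (by omega) (fun k hk => (h4 k hk).trans_le hM)
      (fun k hk => hfM _ _ (h4 k hk))
      (fun k hk k' hk' _ hlt => hf _ _ _ hlt (h4 k' hk'))).mp h5
    unfold Cl at h6
    have h7 : L = m + (L - m) := by omega
    rw [h7, Pv_add] at h6
    have h8 := Pv_rev S hinv s0 (mp f s0 w) m m le_rfl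
    rw [Nat.sub_self, Pv_zero, ← h6, inv_smul_smul] at h8
    rw [Pv_congr S (sd s0 m) (mp f (sd s0 m) fun k => w (m + k)) (fun i => mp f s0 w (m + i))
      (L - m) (by
        intro i _
        unfold mp
        rw [sd_add]), Pv_congr S (sd s0 m) (mp f (sd s0 m) fun k => w (m - k))
        (fun i => mp f s0 w (m - i)) m (by
        intro i hi
        unfold mp
        rw [sd_sub s0 m i hi])]
    exact h8.symm

end Pool.Agent.TH468.BQ
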