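import Pool.Agent.H694R4.Law.P2m
import Pool.Agent.TH468.EC.Iter
import Pool.Agent.TH468.BQ.Ram

/-!
# All even cycles that are long enough
-/

set_option autoImplicit false
set_option linter.unusedSectionVars false

namespace Pool.Agent.TH468.BQ

open Pool.Agent.H694R4.Law SimpleGraph Pool.Agent.TH468.EC

theorem iter1 {Γ V : Type*} [Group Γ] [MulAction Γ V] {X : SimpleGraph V} {S : Sy Γ V}
    {M L q0 : ℕ} (D : Dt X S M L) {s : Bool} {A B : ℕ} {α β : ℕ → ℕ}
    (P : Pat S M L q0 s A B α β) {x : ℕ} {y : V} (hL3 : 3 ≤ L) (N R T z0 : ℕ)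
    (hR : (L - 2) * (N + 1) < R) (hT : q0 * R ≤ T) (hx : T ≤ x) (hx2 : x + T < M)
    (hz0 : (N + 1) * T ≤ z0) (hM : z0 + (N + 1) * T < M) (h0 : St X S s x y 1 z0) :
    ∀ j, 1 + j * (L - 2) ≤ N →
    ∃ z, St X S s x y (1 + j * (L - 2)) z ∧ z0 ≤ z + j * T ∧ z ≤ z0 + j * T := by
  intro j
  induction j with
  | zero =>
    intro _
    exact ⟨z0, by simpa using h0, by omega, by omega⟩
  | succ j ih =>
    intro hj
    have e1 : (j + 1) * (L - 2) = j * (L - 2) + (L - 2) := by ring
    obtain ⟨z, h1, h2, h3⟩ := ih (by omega)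
    have hjN : j + 1 ≤ N := by
      have : (j + 1) * 1 ≤ (j + 1) * (L - 2) := Nat.mul_le_mul_left _ (by omega)
      omega
    have e2 : (j + 1) * T + T ≤ (N + 1) * T := by
      have : (j + 1 + 1) * T ≤ (N + 1) * T := Nat.mul_le_mul_right _ (by omega)
      linarith
    have e3 : (j + 1) * T = j * T + T := by ring
    obtain ⟨z', h4, h5, h6⟩ := step1 D P R (lt_of_le_of_lt (Nat.mul_le_mul_left _ (by omega)) hR)
      (by omega) (by omega) (by omega) (by omega) h1
    refine ⟨z', ?_, by omega, by omega⟩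
    rw [e1, ← add_assoc]
    exact h4

theorem iter2 {Γ V : Type*} [Group Γ] [MulAction Γ V] {X : SimpleGraph V} {S : Sy Γ V}
    {M L q0 : ℕ} (D : Dt X S M L) {s : Bool} {A B : ℕ} {α β : ℕ → ℕ}
    (P : Pat S M L q0 s A B α β) {x : ℕ} {y : V} (hL5 : 5 ≤ L) (N R R' T z0 j : ℕ)
    (hR : (L - 2) * (N + 1) < R) (hR' : 2 * (L - 2) * (N + 1 + L) < R')
    (hT : q0 * R + (q0 * R' * (2 * (q0 * R) + 3) + 2 * (q0 * R)) ≤ T) (hx : T ≤ x)
    (hx2 : x + T < M) (hz0 : (N + 1) * T ≤ z0)
    (hM : z0 + (N + 1) * T < M) (h0 : St X S s x y 1 z0) : ∀ W,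
    1 + j * (L - 2) + W * (3 * (L - 2) - 2) ≤ N →
    ∃ z, St X S s x y (1 + j * (L - 2) + W * (3 * (L - 2) - 2)) z ∧ z0 ≤ z + (j + W) * T ∧
      z ≤ z0 + (j + W) * T := by
  intro W
  induction W with
  | zero =>
    intro h
    rw [Nat.zero_mul, Nat.add_zero] at h ⊢
    exact iter1 D P (by omega) N R T z0 hR (by omega) hx hx2 hz0 hM h0 j h
  | succ W ih =>
    intro hj
    have e1 : (W + 1) * (3 * (L - 2) - 2) = W * (3 * (L - 2) - 2) + (3 * (L - 2) - 2) := by ring
    obtain ⟨z, h1, h2, h3⟩ := ih (by omega)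
    have hjN : j + W + 1 ≤ N := by
      have e4 : j * 1 ≤ j * (L - 2) := Nat.mul_le_mul_left _ (by omega)
      have e5 : (W + 1) * 1 ≤ (W + 1) * (3 * (L - 2) - 2) := Nat.mul_le_mul_left _ (by omega)
      omega
    have e2 : (j + W + 1) * T + T ≤ (N + 1) * T := by
      have : (j + W + 1 + 1) * T ≤ (N + 1) * T := Nat.mul_le_mul_right _ (by omega)
      linarith
    have e3 : (j + W + 1) * T = (j + W) * T + T := by ring
    obtain ⟨z', h4, h5, h6⟩ := wheel D P hL5 R R'
      (lt_of_le_of_lt (Nat.mul_le_mul_left _ (by omega)) hR)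
      (lt_of_le_of_lt (Nat.mul_le_mul_left _ (by omega)) hR')
      (by omega) (by omega) (by omega) (by omega) h1
    refine ⟨z', ?_, ?_, ?_⟩
    · rw [e1, ← add_assoc]
      exact h4
    · rw [← add_assoc, e3]
      omega
    · rw [← add_assoc, e3]
      omega

/-- rows `0` and `1` -/
def rw01 (s : Bool) : ℕ := if s then 0 else 1

/-- the walk between the rows `0` and `1` through the columns of a list -/
def wk (s : Bool) (v : List ℕ) (k : ℕ) : ℕ :=
  if k % 2 = 0 then rw01 (sd s (k / 2)) else v.getD (k / 2) 0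

theorem Gv_wk {Γ V : Type*} [Group Γ] [MulAction Γ V] (S : Sy Γ V)
    (hinv : ∀ s i j, S.γ (!s) j i = (S.γ s i j)⁻¹) (s : Bool) (v : List ℕ) :
    ∀ j ≤ v.length, Gv S true (wk s v) (2 * j) =
      val (fun i => S.γ true 0 i * S.γ false i 1) s (v.take j) := by
  intro j
  induction j with
  | zero =>
    intro _
    simp [Gv, val_nil]
  | succ j ih =>
    intro hj
    have h1 : v.take (j + 1) = v.take j ++ [v[j]] := by
      rw [List.take_append_getElem]
    have h2 : (v.take j).length = j := by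
      rw [List.length_take]
      omega
    have w0 : wk s v (2 * j) = rw01 (sd s j) := by
      unfold wk
      rw [if_pos (by omega), Nat.mul_div_cancel_left _ (by norm_num)]
    have w1 : wk s v (2 * j + 1) = v[j] := by
      unfold wk
      rw [if_neg (by omega), show (2 * j + 1) / 2 = j by omega,
        List.getD_eq_getElem _ _ (by omega)]
    have w2 : wk s v (2 * j + 1 + 1) = rw01 (!(sd s j)) := by
      unfold wk
      rw [if_pos (by omega), show (2 * j + 1 + 1) / 2 = j + 1 by omega, sd_add]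
      rfl
    rw [h1, val_append, h2, val_cons, val_nil, mul_one, ← ih (by omega),
      show 2 * (j + 1) = 2 * j + 1 + 1 by ring, Gv, Gv, mul_assoc, w0, w1, w2,
      sd_even true (2 * j) (by omega), sd_odd true (2 * j + 1) (by omega)]
    congr 1
    cases hs : sd s j
    · have e1 := hinv true 0 v[j]
      have e2 := hinv false v[j] 1
      simp only [Bool.not_true, Bool.not_false] at e1 e2
      simp only [rw01, vl, Bool.not_false, if_true, Bool.not_true, cond_false,
        Bool.false_eq_true, if_false]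
      rw [e1, e2, mul_inv_rev]
    · simp [rw01, vl]

/-- even cycles in a graph with a group of automorphisms that satisfies a law, from many pairs of
vertices -/
theorem localB {r : ℕ} (w : FreeGroup (Fin r)) (hw : w ≠ 1) (k : ℕ) (hk : 2 ≤ k)
    (h : 24 * w.toWord.length ^ 2 ≤ k ∨ (4 * w.toWord.length).factorial ∣ k - 1) :
    ∃ N : ℕ, ∀ (Γ V : Type) [Group Γ] [MulAction Γ V], (∀ φ : FreeGroup (Fin r) →* Γ, φ w = 1) →
    ∀ (X : SimpleGraph V), (∀ (g : Γ) (a c : V), X.Adj a c → X.Adj (g • a) (g • c)) →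
    ∀ (u v : ℕ → V) (g : ℕ → ℕ → Γ), (∀ i < N, ∀ j < N, X.Adj (u i) (g i j • v j)) →
    (∀ i < N, ∀ j < N, ∀ j' < N, g i j • v j = g i j' • v j' → j = j') →
    (∀ j < N, ∀ i < N, ∀ i' < N, (g i j)⁻¹ • u i = (g i' j)⁻¹ • u i' → i = i') →
    cycleGraph (2 * k) ⊑ X := by
  obtain ⟨u0, hul, hub, huv, hun⟩ := p2m w hw
  set lam := w.toWord.length with hlam
  set q0 := 4 * lam + r + 3 with hq0
  set R := 4 * lam * (2 * k + 1) + 1 with hR
  set R' := 2 * (4 * lam) * (2 * k + 1 + 4 * lam) + 1 with hR'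
  set T0 := q0 * R + (q0 * R' * (2 * (q0 * R) + 3) + 2 * (q0 * R)) with hT0
  set z0 := (2 * k + 1) * T0 with hz0
  set M := z0 + (2 * k + 1) * T0 + q0 + 1 with hM
  obtain ⟨N, hN⟩ := ramB M (4 * lam)
  refine ⟨N, fun Γ V _ _ hlaw X haut u v g hadj hi1 hi2 => ?_⟩
  set S0 : Sy Γ V := ⟨fun s i => if s then u i else v i,
    fun s i j => if s then g i j else (g j i)⁻¹⟩ with hS0
  obtain ⟨η, hη1, hη2, hH⟩ := hN Γ V S0
  set S := S0.two η with hS
  have hinv : ∀ s i j, S.γ (!s) j i = (S.γ s i j)⁻¹ := by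
    intro s i j
    cases s <;> simp [hS, hS0, Sy.two]
  have hadj' : ∀ s i j, i < M → j < M → X.Adj (S.b s i) (S.γ s i j • S.b (!s) j) := by
    intro s i j hi hj
    cases s
    · have h1 := haut (g (η true j) (η false i))⁻¹ _ _
        (hadj _ (hη1 true j hj) _ (hη1 false i hi))
      rw [inv_smul_smul] at h1
      simpa [hS, hS0, Sy.two] using h1.symm
    · simpa [hS, hS0, Sy.two] using hadj _ (hη1 true i hi) _ (hη1 false j hj)
  have hinj' : ∀ (s : Bool), ∀ y < M, ∀ i < M, ∀ j < M,
      S.γ s y i • S.b (!s) i = S.γ s y j • S.b (!s) j → i = j := by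
    intro s y hy i hi j hj he
    cases s
    · exact hη2 true i hi j hj (hi2 _ (hη1 false y hy) _ (hη1 true i hi) _ (hη1 true j hj)
        (by simpa [hS, hS0, Sy.two] using he))
    · exact hη2 false i hi j hj (hi1 _ (hη1 true y hy) _ (hη1 false i hi) _ (hη1 false j hj)
        (by simpa [hS, hS0, Sy.two] using he))
  obtain ⟨s', a, b', m, h1, h2, h3, h4, h5, h6⟩ := exist_rel
    (fun i => S.γ true 0 i * S.γ false i 1) (fun i : ℕ => FreeGroup.of i)
    u0.length true u0 rfl (by omega) (huv Γ hlaw _) hun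
  obtain ⟨vv, hvv⟩ : ∃ vv, vv = a :: m ++ [b'] := ⟨_, rfl⟩
  rw [← hvv] at h1 h2 h3 h5 h6
  have hvl : 1 ≤ vv.length := by rw [hvv]; simp
  have hlab : ∀ i ∈ vv, i < q0 := fun i hi => (hub i (h5 i hi)).trans_le (by omega)
  obtain ⟨L, hL3, hLn, D, s, A, B, α, β, P⟩ := exB (X := X) S M (4 * lam) q0 (4 * lam) haut hinv
    hadj' hinj' hH le_rfl (by omega) (by omega) ⟨true, wk s' vv, 2 * vv.length, by omega,
      by omega, by
        intro k hk
        unfold wk
        rcases Nat.mod_two_eq_zero_or_one k with h7 | h7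
        · rw [if_pos h7, if_pos (by omega), show (k + 2) / 2 = k / 2 + 1 by omega, sd_add]
          change rw01 (sd s' (k / 2)) ≠ rw01 (!(sd s' (k / 2)))
          cases sd s' (k / 2) <;> simp [rw01]
        · rw [if_neg (by omega), if_neg (by omega), show (k + 2) / 2 = k / 2 + 1 by omega,
            List.getD_eq_getElem _ _ (by omega), List.getD_eq_getElem _ _ (by omega)]
          unfold Red at h3
          rw [List.isChain_iff_getElem] at h3
          exact h3 (k / 2) (by omega), by
        intro k hk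
        unfold wk
        split_ifs
        · unfold rw01
          split_ifs <;> omega
        · by_cases h8 : k / 2 < vv.length
          · rw [List.getD_eq_getElem _ _ h8]
            exact hlab _ (List.getElem_mem _)
          · rw [List.getD_eq_default _ _ (by omega)]
            omega, by
        unfold Cl Pv
        rw [Gv_wk S hinv s' vv vv.length le_rfl, List.take_length, h6, one_smul,
          sd_even true _ (by omega)]
        congr 1
        unfold wk
        rw [if_pos (by omega), if_pos (by omega), Nat.mul_div_cancel_left _ (by norm_num),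
          sd_even s' _ h2]
        rfl⟩
  obtain ⟨j, W, hW, hjW⟩ := arith (2 * lam) k L hk (by
    rcases h with h | h
    · left
      calc 6 * (2 * lam) ^ 2 = 24 * lam ^ 2 := by ring
        _ ≤ k := h
    · right
      rw [show 2 * (2 * lam) = 4 * lam by ring]
      exact h) hL3 (by omega)
  have hRL : (L - 2) * (2 * k + 1) < R := by
    have : (L - 2) * (2 * k + 1) ≤ 4 * lam * (2 * k + 1) := Nat.mul_le_mul_right _ (by omega)
    omega
  have hRL' : 2 * (L - 2) * (2 * k + 1 + L) < R' := by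
    have : 2 * (L - 2) * (2 * k + 1 + L) ≤ 2 * (4 * lam) * (2 * k + 1 + 4 * lam) :=
      Nat.mul_le_mul (by omega) (by omega)
    omega
  have hz0M : z0 < M := by omega
  have hTz : T0 ≤ z0 := by
    have : 1 * T0 ≤ (2 * k + 1) * T0 := Nat.mul_le_mul_right _ (by omega)
    omega
  have h0 : St X S s z0 (Ed S s z0 z0) 1 z0 := by
    refine ⟨le_rfl, fun i => if i = 0 then S.b s z0 else Ed S s z0 z0, ⟨?_, ?_⟩, by simp,
      by simp, by simp⟩
    · intro i hi
      have hi0 : i = 0 := by omega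
      subst hi0
      simp only [if_true]
      rw [if_neg (by omega)]
      exact hadj' s z0 z0 hz0M hz0M
    · intro i j hij hj
      have hi0 : i = 0 := by omega
      have hj1 : j = 1 := by omega
      subst hi0 hj1
      simp only [if_true]
      rw [if_neg (by omega)]
      exact (hadj' s z0 z0 hz0M hz0M).ne
  obtain ⟨z, hSt⟩ : ∃ z, St X S s z0 (Ed S s z0 z0) (2 * k - 1) z := by
    by_cases hL5 : 5 ≤ L
    · obtain ⟨z, g1, _, _⟩ := iter2 D P hL5 (2 * k) R R' T0 z0 j hRL hRL' le_rfl hTz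
        (by omega) le_rfl (by omega) h0 W (by omega)
      rw [hjW] at g1
      exact ⟨z, g1⟩
    · have hW0 : W = 0 := by
        rcases hW with hW | hW
        · exact hW
        · exact absurd hW hL5
      subst hW0
      rw [Nat.zero_mul, Nat.add_zero] at hjW
      obtain ⟨z, g1, _, _⟩ := iter1 D P hL3 (2 * k) R T0 z0 hRL (by omega) hTz (by omega) le_rfl
        (by omega) h0 j (by omega)
      rw [hjW] at g1
      exact ⟨z, g1⟩
  obtain ⟨_, p, hp, hp0, _, hpn⟩ := hSt
  refine Pool.Agent.H694R4.cycle_of_fun X (2 * k) (by omega) p ?_ ?_ ?_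
  · intro i hi
    exact hp.1 i (by omega)
  · rw [hpn, hp0]
    exact (hadj' s z0 z0 hz0M hz0M).symm
  · intro i j hij hj
    exact hp.2 i j hij (by omega)

end Pool.Agent.TH468.BQ
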