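import Pool.Agent.TH468.EC.Cnt
import Pool.Agent.TH468.BQ.Iter
import Pool.Agent.TH468.BQ.Cnt

/-!
# Bicliques in the quotient, and the number of edges
-/

set_option autoImplicit false

namespace Pool.Agent.TH468.BQ

open SimpleGraph

theorem enum {α : Type*} (s : Finset α) (N : ℕ) (h : N + 1 ≤ s.card) :
    ∃ e : ℕ → α, (∀ i < N, e i ∈ s) ∧ ∀ i < N, ∀ j < N, e i = e j → i = j := by
  obtain ⟨a0, _⟩ : s.Nonempty := Finset.card_pos.mp (by omega)
  refine ⟨fun i => if h : i < s.card then (s.equivFin.symm ⟨i, h⟩ : α) else a0, ?_, ?_⟩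
  · intro i hi
    simp only []
    rw [dif_pos (by omega)]
    exact (s.equivFin.symm ⟨i, by omega⟩).2
  · intro i hi j hj hij
    simp only [] at hij
    rw [dif_pos (by omega), dif_pos (by omega)] at hij
    have := s.equivFin.symm.injective (Subtype.ext hij)
    simpa using this

/-- a complete bipartite graph in the quotient -/
theorem biclique {r : ℕ} (w : FreeGroup (Fin r)) (hw : w ≠ 1) (k : ℕ) (hk : 2 ≤ k)
    (h : 24 * w.toWord.length ^ 2 ≤ k ∨ (4 * w.toWord.length).factorial ∣ k - 1) :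
    ∃ N : ℕ, ∀ m, N ≤ m → ∀ (Γ V : Type) [Group Γ] [MulAction Γ V],
    (∀ φ : FreeGroup (Fin r) →* Γ, φ w = 1) →
    ∀ (X : SimpleGraph V), (∀ (g : Γ) (a c : V), X.Adj a c → X.Adj (g • a) (g • c)) →
    ∀ u v : Fin m → V, (∀ i j, u i ∈ MulAction.orbit Γ (u j) → i = j) →
      (∀ i j, v i ∈ MulAction.orbit Γ (v j) → i = j) →
      (∀ i j, ∃ g : Γ, X.Adj (u i) (g • v j)) → cycleGraph (2 * k) ⊑ X := by
  obtain ⟨N, hN⟩ := localB w hw k hk h
  refine ⟨N + 1, fun m hm Γ V _ _ hlaw X haut u v hu hv hadj => ?_⟩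
  choose g hg using hadj
  have hm0 : 0 < m := by omega
  have key : ∀ i, ∃ i' : Fin m, i < m → (i' : ℕ) = i := by
    intro i
    by_cases hi : i < m
    · exact ⟨⟨i, hi⟩, fun _ => rfl⟩
    · exact ⟨⟨0, hm0⟩, fun h => absurd h hi⟩
  choose f hf using key
  refine hN Γ V hlaw X haut (fun i => u (f i)) (fun j => v (f j)) (fun i j => g (f i) (f j))
    (fun i _ j _ => hg _ _) ?_ ?_
  · intro i hi j hj j' hj' he
    have h1 : f j = f j' := by
      refine hv _ _ ⟨(g (f i) (f j))⁻¹ * g (f i) (f j'), ?_⟩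
      change ((g (f i) (f j))⁻¹ * g (f i) (f j')) • v (f j') = v (f j)
      rw [mul_smul, ← he, inv_smul_smul]
    rw [← hf j (by omega), ← hf j' (by omega), h1]
  · intro j hj i hi i' hi' he
    have h1 : f i = f i' := by
      refine hu _ _ ⟨g (f i) (f j) * (g (f i') (f j))⁻¹, ?_⟩
      change (g (f i) (f j) * (g (f i') (f j))⁻¹) • u (f i') = u (f i)
      rw [mul_smul, ← he, smul_inv_smul]
    rw [← hf i (by omega), ← hf i' (by omega), h1]

open Classical in
/-- the number of edges -/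
theorem edges {r : ℕ} (w : FreeGroup (Fin r)) (hw : w ≠ 1) (k : ℕ) (hk : 2 ≤ k)
    (h : 24 * w.toWord.length ^ 2 ≤ k ∨ (4 * w.toWord.length).factorial ∣ k - 1) :
    ∃ N : ℕ, ∀ m', N ≤ m' → ∃ C : ℕ, ∀ (Γ V : Type) [Group Γ] [MulAction Γ V] [Finite V],
    (∀ φ : FreeGroup (Fin r) →* Γ, φ w = 1) →
    ∀ (X : SimpleGraph V), (∀ (g : Γ) (a c : V), X.Adj a c → X.Adj (g • a) (g • c)) →
    (cycleGraph (2 * k)).Free X → X.edgeSet.ncard ^ (m' + 1) ≤ C * (Nat.card V ^ (m' + 1) *
      Nat.card (MulAction.orbitRel.Quotient Γ V) ^ m') := by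
  obtain ⟨N, hN⟩ := localB w hw k hk h
  obtain ⟨D, hD⟩ := EC.localO w hw k hk (by
    rcases h with h | h
    · left
      refine le_trans (Nat.mul_le_mul_right _ (by norm_num)) h
    · right
      exact (Nat.factorial_dvd_factorial (by omega)).trans h)
  refine ⟨N, fun m' hm' => ⟨(2 * (D * (m' + 1) ^ 2)) ^ (m' + 1) * (m' + 1),
    fun Γ V _ _ _ hlaw X haut hX => ?_⟩⟩
  have := Fintype.ofFinite V
  have := Fintype.ofFinite (MulAction.orbitRel.Quotient Γ V)
  set cls : V → MulAction.orbitRel.Quotient Γ V := fun x => Quotient.mk'' x with hcls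
  have hc : ∀ x y : V, cls x = cls y ↔ ∃ g : Γ, g • y = x := by
    intro x y
    simp only [hcls]
    rw [Quotient.eq'', MulAction.orbitRel_apply]
    rfl
  have hadjg : ∀ (g : Γ) (a c : V), X.Adj (g • a) c → X.Adj a (g⁻¹ • c) := by
    intro g a c hac
    have := haut g⁻¹ _ _ hac
    rwa [inv_smul_smul] at this
  have hreg : ∀ x x', cls x = cls x' → ∀ q, nb X cls x q = nb X cls x' q := by
    intro x x' hxx q
    obtain ⟨g, rfl⟩ := (hc x x').mp hxx
    refine Finset.card_bij' (fun y _ => g⁻¹ • y) (fun y _ => g • y) ?_ ?_ ?_ ?_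
    · intro y hy
      simp only [Finset.mem_filter, Finset.mem_univ, true_and] at hy ⊢
      refine ⟨hadjg g _ _ hy.1, ?_⟩
      rw [← hy.2, hc]
      exact ⟨g⁻¹, rfl⟩
    · intro y hy
      simp only [Finset.mem_filter, Finset.mem_univ, true_and] at hy ⊢
      refine ⟨haut g _ _ hy.1, ?_⟩
      rw [← hy.2, hc]
      exact ⟨g, rfl⟩
    · intro y _
      simp
    · intro y _
      simp
  have hnb : ∀ x y : V, (X.neighborSet x ∩ MulAction.orbit Γ y).ncard = nb X cls x (cls y) := by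
    intro x y
    rw [nb, ← Set.ncard_coe_finset]
    congr 1
    ext z
    simp only [Set.mem_inter_iff, SimpleGraph.mem_neighborSet, Finset.coe_filter,
      Finset.mem_univ, true_and, Set.mem_ofPred_eq]
    rw [hc]
    rfl
  have h1 := count X cls m' D hreg (by
    intro x y
    by_contra hcon
    rw [not_or, not_le, not_le] at hcon
    refine hX (hD Γ V hlaw X haut x y ?_ ?_)
    · rw [hnb]
      exact hcon.1.le
    · rw [hnb]
      exact hcon.2.le) (by
    intro P Z hP hZ hPZ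
    obtain ⟨e, he1, he2⟩ := enum P N (by omega)
    obtain ⟨f, hf1, hf2⟩ := enum Z N (by omega)
    have hex : ∀ i j, ∃ g : Γ, i < N → j < N → X.Adj (e i).out (g • (f j).out) := by
      intro i j
      by_cases hij : i < N ∧ j < N
      · obtain ⟨x, y, hx, hy, hxy⟩ := hPZ _ (he1 i hij.1) _ (hf1 j hij.2)
        obtain ⟨g1, hg1⟩ := (hc x (e i).out).mp (by rw [hx]; exact (Quotient.out_eq' _).symm)
        obtain ⟨g2, hg2⟩ := (hc y (f j).out).mp (by rw [hy]; exact (Quotient.out_eq' _).symm)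
        refine ⟨g1⁻¹ * g2, fun _ _ => ?_⟩
        rw [mul_smul, hg2]
        refine hadjg g1 _ _ ?_
        rw [hg1]
        exact hxy
      · exact ⟨1, fun h1 h2 => absurd ⟨h1, h2⟩ hij⟩
    choose g hg using hex
    refine hX (hN Γ V hlaw X haut (fun i => (e i).out) (fun j => (f j).out) g
      (fun i hi j hj => hg i j hi hj) ?_ ?_)
    · intro i _ j hj j' hj' he
      refine hf2 j hj j' hj' ?_
      rw [← Quotient.out_eq' (f j), ← Quotient.out_eq' (f j')]
      refine (hc _ _).mpr ⟨(g i j)⁻¹ * g i j', ?_⟩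
      rw [mul_smul, ← he, inv_smul_smul]
    · intro j _ i hi i' hi' he
      refine he2 i hi i' hi' ?_
      rw [← Quotient.out_eq' (e i), ← Quotient.out_eq' (e i')]
      refine (hc _ _).mpr ⟨g i j * (g i' j)⁻¹, ?_⟩
      rw [mul_smul, ← he, smul_inv_smul]) (by
    intro x Z hZ
    by_contra hcon
    obtain ⟨f, hf1, hf2⟩ := enum Z N (by omega)
    have hy : ∀ j, ∃ y, j < N → cls y = f j ∧ X.Adj x y ∧ m' + 1 ≤ nb X cls y (cls x) := by
      intro j
      by_cases hj : j < N
      · obtain ⟨y, hy⟩ := hZ _ (hf1 j hj)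
        exact ⟨y, fun _ => hy⟩
      · exact ⟨x, fun h => absurd h hj⟩
    choose y hy using hy
    have hz : ∀ j, ∃ z : ℕ → V, j < N → (∀ i < N, X.Adj (y j) (z i) ∧ cls (z i) = cls x) ∧
        ∀ i < N, ∀ i' < N, z i = z i' → i = i' := by
      intro j
      by_cases hj : j < N
      · obtain ⟨z, hz1, hz2⟩ := enum (Finset.univ.filter fun z : V =>
          X.Adj (y j) z ∧ cls z = cls x) N (by
            have h5 := (hy j hj).2.2
            unfold nb at h5
            omega)
        exact ⟨z, fun _ => ⟨fun i hi => (Finset.mem_filter.mp (hz1 i hi)).2, hz2⟩⟩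
      · exact ⟨fun _ => x, fun h => absurd h hj⟩
    choose z hz using hz
    have hh : ∀ i j, ∃ g : Γ, i < N → j < N → g • x = z j i := by
      intro i j
      by_cases hij : i < N ∧ j < N
      · obtain ⟨g, hg⟩ := (hc _ _).mp ((hz j hij.2).1 i hij.1).2
        exact ⟨g, fun _ _ => hg⟩
      · exact ⟨1, fun h1 h2 => absurd ⟨h1, h2⟩ hij⟩
    choose g hg using hh
    refine hX (hN Γ V hlaw X haut (fun _ => x) y (fun i j => (g i j)⁻¹) ?_ ?_ ?_)
    · intro i hi j hj
      refine hadjg (g i j) _ _ ?_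
      rw [hg i j hi hj]
      exact ((hz j hj).1 i hi).1.symm
    · intro i hi j hj j' hj' he
      refine hf2 j hj j' hj' ?_
      rw [← (hy j hj).1, ← (hy j' hj').1]
      refine (hc _ _).mpr ⟨g i j * (g i j')⁻¹, ?_⟩
      rw [mul_smul, ← he, smul_inv_smul]
    · intro j hj i hi i' hi' he
      rw [inv_inv, inv_inv, hg i j hi hj, hg i' j hi' hj] at he
      exact (hz j hj).2 i hi i' hi' he)
  rw [← Nat.card_eq_fintype_card, ← Nat.card_eq_fintype_card] at h1
  exact h1

end Pool.Agent.TH468.BQ
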